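import Pool.Agent.Lib.PTime.Eq

/-!
# Polynomial time functions: finite types, functions on finite types, more arithmetic
-/

open Turing Function

namespace Pool.Agent.Lib.PT

variable {α β γ δ σ : Type} [Enc α] [Enc β] [Enc γ] [Enc δ] [Enc σ]

instance {α : Type} [Enc α] [EncInj α] {p : α → Prop} : EncInj {a // p a} :=
  ⟨fun _ _ h => Subtype.ext (EncInj.inj h)⟩

/-- All elements of a finite type (for the encoding of functions). -/
noncomputable def elts (α : Type) [Fintype α] : List α := (Finset.univ : Finset α).toList

theorem mem_elts {α : Type} [Fintype α] (a : α) : a ∈ elts α := by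
  unfold elts
  simp

/-- Functions on a finite type are represented by the list of the values. -/
noncomputable instance encPi {α β : Type} [Fintype α] [Enc β] : Enc (α → β) :=
  ⟨fun f => tr ((elts α).map f)⟩

theorem tr_pi {α β : Type} [Fintype α] [Enc β] (f : α → β) : tr f = tr ((elts α).map f) := rfl

instance {α β : Type} [Fintype α] [Enc β] [EncInj β] : EncInj (α → β) := ⟨fun f g h => by
  rw [tr_pi, tr_pi] at h
  have h1 : (elts α).map f = (elts α).map g := EncInj.inj h
  funext a
  exact List.map_inj_left.1 h1 a (mem_elts a)⟩

/-- Functions on an empty type. -/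
theorem PTime.of_isEmpty [IsEmpty α] (f : α → β) : PTime f :=
  PTime.same f fun a => (IsEmpty.false a).elim

/-- Case distinction over the elements of a finite type. -/
theorem PTime.finCases [Finite β] [EncInj β] {g : α → β} {h : α → β → γ} (hg : PTime g)
    (hh : ∀ b, PTime fun a => h a b) : PTime fun a => h a (g a) := by
  classical
  have : Fintype β := Fintype.ofFinite β
  rcases isEmpty_or_nonempty α with hα | ⟨⟨a₀⟩⟩
  · exact PTime.of_isEmpty _
  have key : ∀ L : List β, ∃ F : α → γ, PTime F ∧ ∀ a, g a ∈ L → F a = h a (g a) := by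
    intro L
    induction L with
    | nil => exact ⟨fun a => h a (g a₀), hh _, fun a ha => by simp at ha⟩
    | cons b L ih =>
      obtain ⟨F, hF, h1⟩ := ih
      refine ⟨fun a => if g a = b then h a b else F a,
        PTime.ite (p := fun a => g a = b) (hg.eq (PTime.const b)) (hh b) hF, fun a ha => ?_⟩
      by_cases e : g a = b
      · simp [e]
      · rw [List.mem_cons] at ha
        rcases ha with ha | ha
        · exact absurd ha e
        · simp [e, h1 a ha]
  obtain ⟨F, hF, h1⟩ := key (elts β)
  exact hF.of_eq fun a => h1 a (mem_elts _)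

/-- Every function on a finite type. -/
theorem PTime.finite [Finite α] [EncInj α] (f : α → β) : PTime f :=
  PTime.finCases (h := fun _ b => f b) PTime.id fun b => PTime.const (f b)

/-- Every function of a value in a finite type. -/
theorem PTime.ofFinite [Finite β] [EncInj β] {g : α → β} (hg : PTime g) (f : β → γ) :
    PTime fun a => f (g a) := (PTime.finite f).comp hg

/-- Lists over a constant list. -/
theorem PTime.mapConst {ι : Type} (L : List ι) {f : α → ι → β} (hf : ∀ i, PTime fun a => f a i) :
    PTime fun a => L.map (f a) := by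
  induction L with
  | nil => exact PTime.const _
  | cons i L ih => exact (hf i).cons ih

/-- Lists over a constant list. -/
theorem PTime.flatMapConst {ι : Type} (L : List ι) {f : α → ι → List β}
    (hf : ∀ i, PTime fun a => f a i) : PTime fun a => L.flatMap (f a) := by
  induction L with
  | nil => exact PTime.const _
  | cons i L ih =>
    refine ((hf i).append ih).of_eq fun a => ?_
    rw [List.flatMap_cons]

/-- Functions into the functions on a finite type. -/
theorem PTime.pi {ι : Type} [Fintype ι] {f : α → ι → β} (hf : ∀ i, PTime fun a => f a i) :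
    PTime f := by
  refine PTime.cast (f := fun a => (elts ι).map (f a)) (PTime.mapConst _ hf) (fun a => a)
    (fun _ => rfl) fun a => rfl

theorem getElem?_tr (l : List β) (k : ℕ) {b : β} (h : l[k]? = some b) :
    T.hd (T.tl^[k] (tr l)) = tr b := by
  induction l generalizing k with
  | nil => simp at h
  | cons x l ih =>
    cases k with
    | zero =>
      rw [List.getElem?_cons_zero, Option.some.injEq] at h
      subst h
      rfl
    | succ k =>
      rw [List.getElem?_cons_succ] at h
      rw [iterate_succ_apply]
      exact ih k h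

/-- The value of a function at a constant. -/
theorem PTime.app {ι : Type} [Fintype ι] {f : α → ι → β} (hf : PTime f) (i : ι) :
    PTime fun a => f a i := by
  obtain ⟨k, hk⟩ := List.mem_iff_getElem?.1 (mem_elts i)
  have h1 : PTime fun t : T => T.hd (T.tl^[k] t) := by
    refine PTime.hd.comp ?_
    clear hk
    induction k with
    | zero => exact PTime.id
    | succ k ih =>
      refine (PTime.tl.comp ih).of_eq fun t => ?_
      rw [iterate_succ_apply']
  refine PTime.cast (f := fun a => T.hd (T.tl^[k] (tr (f a)))) ?_ (fun a => a) (fun _ => rfl)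
    fun a => ?_
  · exact (h1.comp (PTime.same (fun g : ι → β => tr g) fun _ => rfl)).comp hf
  · show tr (f a i) = _
    rw [tr_pi, getElem?_tr _ k (b := f a i)]
    · rfl
    · rw [List.getElem?_map, hk]
      rfl

/-- The value of a function. -/
theorem PTime.app' {ι : Type} [Fintype ι] [Enc ι] [EncInj ι] {f : α → ι → β}
    {g : α → ι} (hf : PTime f) (hg : PTime g) : PTime fun a => f a (g a) :=
  PTime.finCases hg fun i => hf.app i

/-! ### Sizes -/

theorem exists_sz_le (α : Type) [Finite α] [Enc α] : ∃ M, ∀ a : α, sz a ≤ M := by
  have : Fintype α := Fintype.ofFinite α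
  exact ⟨Finset.univ.sup fun a : α => sz a, fun a =>
    Finset.le_sup (f := fun a : α => sz a) (Finset.mem_univ a)⟩

/-! ### Lists -/

/-- The index of an element in a list. -/
theorem PTime.idxOf [EncInj β] [BEq β] [LawfulBEq β] {l : α → List β} {x : α → β}
    (hl : PTime l) (hx : PTime x) : PTime fun a => (l a).idxOf (x a) := by
  classical
  have key : ∀ (x : β) (l : List β) (b : Bool) (n : ℕ),
      l.foldl (fun (s : Bool × ℕ) y => if s.1 = true then s else
        if y = x then (true, s.2) else (false, s.2 + 1)) (b, n) =
      if b = true then (b, n) else (decide (x ∈ l), n + l.idxOf x) := by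
    intro x l
    induction l with
    | nil => intro b n; cases b <;> simp
    | cons y l ih =>
      intro b n
      rw [List.foldl_cons]
      cases b with
      | true => simp only [if_true]; rw [ih]; simp
      | false =>
        simp only [Bool.false_eq_true, if_false]
        by_cases e : y = x
        · subst e
          simp only [if_true]
          rw [ih]
          simp
        · simp only [e, if_false]
          rw [ih, List.idxOf_cons_ne _ e]
          simp only [Bool.false_eq_true, if_false, List.mem_cons, Prod.mk.injEq]
          refine ⟨?_, by omega⟩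
          rw [decide_eq_decide]
          exact ⟨Or.inr, fun h => h.resolve_left fun h => e h.symm⟩
  have hf : PTime fun p : α × (Bool × ℕ) × β => if p.2.1.1 = true then p.2.1 else
      if p.2.2 = x p.1 then (true, p.2.1.2) else (false, p.2.1.2 + 1) := by
    have h1 : PTime fun p : α × (Bool × ℕ) × β => x p.1 := hx.comp (by fun_prop)
    have h2 : PTime fun p : α × (Bool × ℕ) × β => decide (p.2.1.1 = true) := by fun_prop
    have h3 : PTime fun p : α × (Bool × ℕ) × β => decide (p.2.2 = x p.1) := by fun_prop
    exact PTime.ite h2 (by fun_prop) (PTime.ite h3 (by fun_prop) (by fun_prop))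
  have h := PTime.foldl (l := l) (s := fun _ => ((false, 0) : Bool × ℕ))
    (f := fun a (s : Bool × ℕ) y => if s.1 = true then s else
      if y = x a then (true, s.2) else (false, s.2 + 1)) hl (PTime.const _) hf
    (B := fun a => 3 + (2 * sz (l a) + 1) + 1) ?_ ?_
  · exact h.snd'.of_eq fun a => by rw [key]; simp
  · exact ((PB.const 3).add (((PB.const 2).mul hl.sz_le).add (PB.const 1))).add (PB.const 1)
  · intro a l₁ l₂ e
    rw [key]
    simp only [Bool.false_eq_true, if_false]
    rw [sz_mk, sz_nat]
    have h1 := sz_bool (decide (x a ∈ l₁))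
    have h2 : l₁.idxOf (x a) ≤ l₁.length := List.idxOf_le_length
    have h3 := length_le_sz (l a)
    rw [e, List.length_append] at h3
    rw [e]
    omega

/-- Is an element in a list? -/
theorem PTime.mem [EncInj β] [DecidableEq β] {l : α → List β} {x : α → β}
    (hl : PTime l) (hx : PTime x) : PTime fun a => decide (x a ∈ l a) := by
  refine (PTime.any (l := l) (f := fun a y => decide (y = x a)) hl ?_).of_eq fun a => ?_
  · have h1 : PTime fun p : α × β => x p.1 := hx.comp (by fun_prop)
    fun_prop
  · rw [Bool.eq_iff_iff]
    simp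

/-- The list without repetitions. -/
theorem PTime.dedup [EncInj β] [DecidableEq β] {l : α → List β} (hl : PTime l) :
    PTime fun a => (l a).dedup := by
  have key : ∀ l : List β, l.foldl (fun acc x => if x ∈ acc then acc else x :: acc) [] =
      l.reverse.dedup := by
    intro l
    induction l using List.reverseRecOn with
    | nil => rfl
    | append_singleton l x ih =>
      rw [List.foldl_append, ih, List.reverse_append]
      simp only [List.foldl_cons, List.foldl_nil, List.reverse_cons, List.reverse_nil,
        List.nil_append, List.singleton_append]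
      by_cases h : x ∈ l.reverse
      · rw [List.dedup_cons_of_mem h, if_pos (List.mem_dedup.2 h)]
      · rw [List.dedup_cons_of_notMem h, if_neg (fun h' => h (List.mem_dedup.1 h'))]
  have hsub : ∀ l l' : List β, l.Sublist l' → sz l ≤ sz l' := by
    intro l l' h
    induction h with
    | slnil => exact le_rfl
    | cons a _ ih => rw [sz_cons]; omega
    | cons_cons a _ ih => rw [sz_cons, sz_cons]; omega
  have hf : PTime fun p : α × List β × β => if p.2.2 ∈ p.2.1 then p.2.1 else p.2.2 :: p.2.1 := by
    refine PTime.ite (p := fun p : α × List β × β => p.2.2 ∈ p.2.1) ?_ (by fun_prop)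
      (by fun_prop)
    exact PTime.mem (l := fun p : α × List β × β => p.2.1) (x := fun p => p.2.2) (by fun_prop)
      (by fun_prop)
  refine (PTime.foldl (l := fun a => (l a).reverse) (s := fun _ => [])
    (f := fun _ acc x => if x ∈ acc then acc else x :: acc) hl.reverse (PTime.const _) hf
    hl.sz_le ?_).of_eq fun a => by rw [key, List.reverse_reverse]
  intro a l₁ l₂ e
  rw [key]
  have h1 := hsub _ _ (List.dedup_sublist l₁.reverse)
  have h2 := sz_append l₁ l₂
  rw [← e, sz_reverse] at h2
  rw [sz_reverse] at h1
  have := sz_pos l₂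
  omega

/-! ### Arithmetic -/

@[fun_prop] theorem PTime.mod {f g : α → ℕ} (hf : PTime f) (hg : PTime g) :
    PTime fun a => f a % g a := by
  have key : ∀ (m k x : ℕ), ((fun y => if m ≤ y then y - m else y)^[k] x) % m = x % m := by
    intro m k
    induction k with
    | zero => intro x; rfl
    | succ k ih =>
      intro x
      rw [iterate_succ_apply, ih]
      split_ifs with h
      · exact (Nat.mod_eq_sub_mod h).symm
      · rfl
  have hle : ∀ (m k x : ℕ), ((fun y => if m ≤ y then y - m else y)^[k] x) ≤ x := by
    intro m k
    induction k with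
    | zero => intro x; exact le_rfl
    | succ k ih =>
      intro x
      rw [iterate_succ_apply]
      refine (ih _).trans ?_
      split_ifs <;> omega
  have hlt : ∀ (m k x : ℕ), x ≤ k → 0 < m →
      ((fun y => if m ≤ y then y - m else y)^[k] x) < m := by
    intro m k
    induction k with
    | zero => intro x hx hm; simpa [Nat.le_zero.1 hx] using hm
    | succ k ih =>
      intro x hx hm
      rw [iterate_succ_apply]
      by_cases h : m ≤ x
      · rw [if_pos h]
        exact ih _ (by omega) hm
      · rw [if_neg h]
        exact (hle m k x).trans_lt (by omega)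
  have h : PTime fun a => (fun y => if g a ≤ y then y - g a else y)^[f a] (f a) := by
    refine PTime.iterate (f := fun a y => if g a ≤ y then y - g a else y) hf hf ?_ hf.sz_le ?_
    · have h1 : PTime fun p : α × ℕ => g p.1 := hg.comp (by fun_prop)
      exact PTime.ite (p := fun p : α × ℕ => g p.1 ≤ p.2) (by fun_prop) (by fun_prop)
        (by fun_prop)
    · intro a i _
      rw [sz_nat, sz_nat]
      have := hle (g a) i (f a)
      omega
  refine h.of_eq fun a => ?_
  rcases Nat.eq_zero_or_pos (g a) with e | e
  · rw [e, Nat.mod_zero]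
    generalize f a = x
    have : ∀ k : ℕ, (fun y => if 0 ≤ y then y - 0 else y)^[k] x = x := by
      intro k
      induction k with
      | zero => rfl
      | succ k ih => rw [iterate_succ_apply', ih]; simp
    exact this x
  · rw [← key (g a) (f a) (f a), Nat.mod_eq_of_lt]
    exact hlt _ _ _ le_rfl e

/-- The logarithm. -/
@[fun_prop] theorem PTime.log2 {f : α → ℕ} (hf : PTime f) : PTime fun a => Nat.log 2 (f a) := by
  -- the pair `(2 ^ k, k)`
  have key : ∀ m k : ℕ,
      let s := (fun s : ℕ × ℕ => if 2 * s.1 ≤ m then (2 * s.1, s.2 + 1) else s)^[k] (1, 0)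
      s.1 = 2 ^ s.2 ∧ (1 ≤ m → s.1 ≤ m) ∧ (s.1 ≤ m + 1) ∧ (m < 2 * s.1 ∨ s.2 = k) := by
    intro m k
    induction k with
    | zero => simp; try omega
    | succ k ih =>
      simp only [iterate_succ_apply'] at ih ⊢
      obtain ⟨h1, h2, h3, h4⟩ := ih
      split_ifs with h
      · refine ⟨?_, fun _ => h, by simp only; omega, ?_⟩
        · simp only
          rw [pow_succ, ← h1]
          ring
        · right
          simp only
          rcases h4 with h4 | h4 <;> omega
      · exact ⟨h1, h2, h3, Or.inl (by omega)⟩
  have h : PTime fun a =>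
      (fun s : ℕ × ℕ => if 2 * s.1 ≤ f a then (2 * s.1, s.2 + 1) else s)^[f a] (1, 0) := by
    refine PTime.iterate (s := fun _ => ((1, 0) : ℕ × ℕ))
      (f := fun a (s : ℕ × ℕ) => if 2 * s.1 ≤ f a then (2 * s.1, s.2 + 1) else s) hf
      (by fun_prop) ?_ (B := fun a => 10 * (sz (f a) + 2)) ?_ ?_
    · have h1 : PTime fun q : α × ℕ × ℕ => f q.1 := hf.comp (by fun_prop)
      exact PTime.ite (p := fun q : α × ℕ × ℕ => 2 * q.2.1 ≤ f q.1) (by fun_prop) (by fun_prop)
        (by fun_prop)
    · exact (PB.const 10).mul (hf.sz_le.add (PB.const 2))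
    · intro a k hk
      obtain ⟨h1, -, h2, -⟩ := key (f a) k
      generalize (fun s : ℕ × ℕ => if 2 * s.1 ≤ f a then (2 * s.1, s.2 + 1) else s)^[k] (1, 0) = s
        at h1 h2 ⊢
      obtain ⟨x, y⟩ := s
      simp only at h1 h2
      rw [sz_mk, sz_nat, sz_nat, sz_nat]
      have : y < 2 ^ y := Nat.lt_two_pow_self
      omega
  refine h.snd'.of_eq fun a => ?_
  obtain ⟨h1, h2, h3, h4⟩ := key (f a) (f a)
  generalize (fun s : ℕ × ℕ => if 2 * s.1 ≤ f a then (2 * s.1, s.2 + 1) else s)^[f a] (1, 0) = s
    at h1 h2 h3 h4 ⊢
  obtain ⟨x, y⟩ := s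
  simp only at h1 h2 h3 h4 ⊢
  rcases Nat.eq_zero_or_pos (f a) with e | e
  · rw [e] at h4 ⊢
    rcases h4 with h4 | h4
    · rw [e] at h3
      have h5 : 2 ^ y ≤ 1 := by omega
      have : y < 2 ^ y := Nat.lt_two_pow_self
      simp
      omega
    · simp [h4]
  · symm
    rw [Nat.log_eq_iff (Or.inr ⟨by norm_num, by omega⟩)]
    refine ⟨by rw [← h1]; exact h2 e, ?_⟩
    rcases h4 with h4 | h4
    · rw [pow_succ, ← h1]; omega
    · have : f a < 2 ^ f a := Nat.lt_two_pow_self
      rw [h4, pow_succ]
      omega

/-- Powers, when they are small. -/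
theorem PTime.pow (b : ℕ) (hb : 1 ≤ b) {n : α → ℕ} (hn : PTime n) (hB : PB fun a => b ^ n a) :
    PTime fun a => b ^ n a := by
  have key : ∀ k : ℕ, (fun x : ℕ => b * x)^[k] 1 = b ^ k := by
    intro k
    induction k with
    | zero => rfl
    | succ k ih => rw [iterate_succ_apply', ih, pow_succ]; ring
  refine (PTime.iterate (s := fun _ => 1) (f := fun _ x => b * x) hn (PTime.const 1)
    (by fun_prop) (B := fun a => 2 * b ^ n a + 1) (((PB.const 2).mul hB).add (PB.const 1))
    ?_).of_eq fun a => key _
  intro a i hi
  rw [key, sz_nat]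
  have := Nat.pow_le_pow_right hb hi
  omega

end Pool.Agent.Lib.PT
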