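import Pool.Agent.Lib.PTime.Nat
import Pool.Agent.Lib.CookLevin.Mapper

/-!
# Polynomial time functions are computable by Turing machines in polynomial time
-/

set_option linter.unusedSectionVars false

open Turing Function

namespace Pool.Agent.Lib.PT

open PolyTM (Cmd)
open PolyTM.Cmd (Run)

/-! ### Comparison with a fixed tree -/

/-- Is the tree equal to `y`? -/
def eqT : T → T → Bool
  | .nil, x => !x.isCons
  | .cons a b, x => x.isCons && (eqT a x.hd && eqT b x.tl)

theorem eqT_iff (y : T) : ∀ x, eqT y x = true ↔ x = y := by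
  induction y with
  | nil => intro x; cases x <;> simp [eqT, T.isCons]
  | cons a b iha ihb =>
    intro x
    cases x with
    | nil => simp [eqT, T.isCons]
    | cons c d => simp [eqT, T.isCons, T.hd, T.tl, iha, ihb]

theorem PTime.eqT (y : T) : PTime (eqT y) := by
  induction y with
  | nil => exact PTime.isCons.not
  | cons a b iha ihb =>
    exact PTime.isCons.and ((iha.comp PTime.hd).and (ihb.comp PTime.tl))

section

variable {G₁ G₂ : Type} [Fintype G₁] [Fintype G₂] [Enc G₁] [Enc G₂] [DecidableEq G₁]

/-- The letter of the input alphabet. -/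
abbrev em₁ (g : G₁) : X (G₁ ⊕ G₂) := Sum.inr (Sum.inl g)

/-- The letter of the output alphabet. -/
abbrev em₂ (g : G₂) : X (G₁ ⊕ G₂) := Sum.inr (Sum.inr g)

/-- Is it the input letter `g`? -/
def isIn (g : G₁) : Option (X (G₁ ⊕ G₂)) → Bool
  | some (Sum.inr (Sum.inl g')) => decide (g' = g)
  | _ => false

/-- Push the code of the letter that is the internal state. -/
def chain : List G₁ → Prog (G₁ ⊕ G₂)
  | [] => .load id
  | g :: L => .ite (isIn g) (pushW (lo :: (tr g).enc)) (chain L)

theorem doesU_chain (g : G₁) (t : List G₁) {i r u : List (X (G₁ ⊕ G₂))} : ∀ L : List G₁, g ∈ L →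
    DoesU (chain L) (some (em₁ g)) (st i r u (tr t).enc [] [] []) (L.length + (sz g + 2))
      (st i r u (tr (g :: t)).enc [] [] []) := by
  intro L
  induction L with
  | nil => intro h; simp at h
  | cons g' L ih =>
    intro h
    by_cases hg : g = g'
    · subst hg
      have h1 := does_pushW (i := i) (r := r) (u := u) (R := (tr t).enc)
        (lo :: (tr g : T).enc : List (X (G₁ ⊕ G₂)))
      obtain ⟨v', n, hn, hr⟩ := DoesU.ite_true (p := isIn g) (d := chain L)
        (u := some (em₁ g)) (by simp [isIn]) (h1.u _)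
      refine ⟨v', n, ?_, hr⟩
      rw [List.length_cons, T.length_enc] at hn
      simp only [List.length_cons, sz]
      omega
    · obtain ⟨v', n, hn, hr⟩ := DoesU.ite_false (p := isIn g') (c := pushW (lo :: (tr g').enc))
        (u := some (em₁ g)) (by simp [isIn, hg]) (ih ((List.mem_cons.1 h).resolve_left hg))
      refine ⟨v', n, ?_, hr⟩
      simp only [List.length_cons]
      omega

/-- The input is read. -/
def readP (L : List G₁) : Prog (G₁ ⊕ G₂) :=
  .seq (mvAll .inp .rev) (.seq (psh .m lz) (wne .rev (.seq (pp .rev) (chain L))))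

theorem does_readP {L : List G₁} (hL : ∀ g, g ∈ L) {M : ℕ} (hM : ∀ g : G₁, sz g ≤ M)
    (x : List G₁) : Does (readP L) (st (x.map em₁) [] [] [] [] [] [])
      (x.length * (L.length + M + 9) + 5)
      (st [] [] [] (tr x).enc [] [] [] : Store (G₁ ⊕ G₂)) := by
  have h1 := does_mvAll (i := .inp) (j := .rev) (by decide)
    (st (x.map (em₁ (G₂ := G₂))) [] [] [] [] [] [])
  have h2 := does_psh .m lz (st [] (x.map (em₁ (G₂ := G₂))).reverse [] [] [] [] [])
  simp only [st_inp, st_rev, up_rev, up_inp, st_m, up_m, List.append_nil] at h1 h2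
  have key : ∀ l t : List G₁, ItNE .rev (.seq (pp .rev) (chain L))
      (st [] (l.map (em₁ (G₂ := G₂))) [] (tr t).enc [] [] []) (l.length * (L.length + M + 5))
      (st [] [] [] (tr (l.reverse ++ t)).enc [] [] []) := by
    intro l
    induction l with
    | nil => intro t; rw [List.length_nil, Nat.zero_mul]; exact .refl _
    | cons g l ih =>
      intro t
      have a1 := doesV_pp .rev (st [] ((g :: l).map (em₁ (G₂ := G₂))) [] (tr t).enc [] [] [])
      simp only [List.map_cons, st_rev, up_rev, List.tail_cons, List.head?_cons] at a1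
      have a2 := a1.seqU (doesU_chain g t (i := []) (r := l.map (em₁ (G₂ := G₂))) (u := []) L
        (hL g))
      have a3 := ItNE.step (k := .rev) (by simp) a2 (ih (g :: t))
      have e : (g :: l).reverse ++ t = l.reverse ++ g :: t := by simp
      rw [e]
      have h3 := hM g
      have h4 : ∀ {n n' : ℕ} {S S' : Store (G₁ ⊕ G₂)}, n ≤ n' →
          ItNE .rev (.seq (pp .rev) (chain L)) S n S' →
          ∃ n'', n'' ≤ n' ∧ ItNE .rev (.seq (pp .rev) (chain L)) S n'' S' :=
        fun h h' => ⟨_, h, h'⟩
      have a4 := ItNE.step (k := .rev) (by simp) (a2.mono (t' := L.length + M + 3) (by omega))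
        (ih (g :: t))
      exact Iter.cast a4 (by rw [List.length_cons]; ring)
  have h3 := (key x.reverse []).does rfl
  rw [List.map_reverse, List.reverse_reverse, List.append_nil, List.length_reverse] at h3
  refine (h1.seq (h2.seq h3)).mono ?_
  rw [List.length_map]
  have : x.length * (L.length + M + 9) = 4 * x.length + x.length * (L.length + M + 5) := by ring
  omega

/-- Write the letter whose tree is on the top of the stack. -/
noncomputable def emit : List G₂ → Prog (G₁ ⊕ G₂)
  | [] => .load id
  | g :: L => .seq (test (Classical.choose (PTime.eqT (tr g) (G₁ ⊕ G₂))))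
      (.ite isO (psh .rev (em₂ g)) (emit L))

theorem does_emit (hinj : Injective (tr : G₂ → T)) : ∀ L : List G₂, ∃ C : ℕ, ∀ g ∈ L,
    ∀ i r u R : List (X (G₁ ⊕ G₂)), Does (emit L) (st i r u ((tr g).enc ++ R) [] [] []) C
      (st i (em₂ g :: r) u ((tr g).enc ++ R) [] [] []) := by
  intro L
  induction L with
  | nil => exact ⟨0, fun g h => by simp at h⟩
  | cons g' L ih =>
    obtain ⟨C, hC⟩ := ih
    obtain ⟨t, -, ht⟩ := Classical.choose_spec (PTime.eqT (tr g') (G₁ ⊕ G₂))
    let D : ℕ := Finset.univ.sup fun g : G₂ => 19 * (tr g).size + 9 + (t (tr g) + 5)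
    have hD : ∀ g : G₂, 19 * (tr g).size + 9 + (t (tr g) + 5) ≤ D := fun g =>
      Finset.le_sup (f := fun g : G₂ => 19 * (tr g).size + 9 + (t (tr g) + 5))
        (Finset.mem_univ g)
    refine ⟨D + (C + 2), fun g hg i r u R => ?_⟩
    have h1 := (doesV_test (i := i) (r := r) (u := u) (R := R) (ht (tr g))).mono (hD g)
    by_cases h : g = g'
    · subst h
      rw [show eqT (tr g) (tr g) = true from (eqT_iff _ _).2 rfl] at h1
      have h2 := does_psh .rev (em₂ g) (st i r u ((tr g).enc ++ R) [] [] [])
      simp only [st_rev, up_rev] at h2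
      exact (h1.seqU (DoesU.ite_true (p := isO) (d := emit L) rfl (h2.u _))).mono (by omega)
    · have h3 : eqT (tr g') (tr g) = false := by
        rw [Bool.eq_false_iff]
        intro h4
        exact h (hinj ((eqT_iff _ _).1 h4))
      rw [h3] at h1
      have h2 := hC g ((List.mem_cons.1 hg).resolve_left h) i r u R
      exact (h1.seqU (DoesU.ite_false (p := isO) (c := psh .rev (em₂ g')) rfl
        (h2.u _))).mono (by omega)

/-- The output is written. -/
noncomputable def writeP (L : List G₂) : Prog (G₁ ⊕ G₂) :=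
  .seq (whl (pk .m) isO (.seq (pp .m) (.seq (emit L) dropT)))
    (.seq (pp .m) (mvAll .rev .out))

theorem does_writeP (hinj : Injective (tr : G₂ → T)) {L : List G₂} (hL : ∀ g, g ∈ L) :
    ∃ C : ℕ, ∀ y : List G₂, Does (writeP L) (st [] [] [] (tr y).enc [] [] [])
      (y.length * C + 5) (st [] [] (y.map em₂) [] [] [] [] : Store (G₁ ⊕ G₂)) := by
  obtain ⟨C, hC⟩ := does_emit (G₁ := G₁) hinj L
  let M : ℕ := Finset.univ.sup fun g : G₂ => sz g
  have hM : ∀ g : G₂, sz g ≤ M := fun g =>
    Finset.le_sup (f := fun g : G₂ => sz g) (Finset.mem_univ g)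
  refine ⟨C + 9 * M + 12, fun y => ?_⟩
  have key : ∀ y : List G₂, ∀ r : List (X (G₁ ⊕ G₂)),
      Iter (pk .m) isO (.seq (pp .m) (.seq (emit L) dropT))
      (st [] r [] (tr y).enc [] [] []) (y.length * (C + 9 * M + 8))
      (st [] ((y.map em₂).reverse ++ r) [] [lz] [] [] []) := by
    intro y
    induction y with
    | nil => intro r; rw [List.length_nil, Nat.zero_mul]; exact .refl _
    | cons g y ih =>
      intro r
      have a0 := doesV_pk .m (st [] r [] (tr (g :: y)).enc [] [] [] : Store (G₁ ⊕ G₂))
      have a1 := (doesV_pp .m (st [] r [] (tr (g :: y)).enc [] [] [] : Store (G₁ ⊕ G₂))).does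
      have e : (tr (g :: y)).enc = (lo : X (G₁ ⊕ G₂)) :: ((tr g).enc ++ (tr y).enc) := rfl
      simp only [e, st_m, up_m, List.head?_cons, List.tail_cons] at a0 a1
      have a2 := hC g (hL g) [] r [] (tr y).enc
      have a3 := does_dropT (i := []) (r := em₂ g :: r) (u := []) (R := (tr y).enc) (tr g)
      have a4 : 9 * (tr g).size + 5 ≤ 9 * M + 5 := by
        have : (tr g).size ≤ M := hM g
        omega
      have a5 := Iter.step (p := isO) a0 rfl (a1.seq (a2.seq (a3.mono a4)))
        (ih (em₂ g :: r))
      rw [e]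
      have e2 : ((g :: y).map (em₂ (G₁ := G₁))).reverse ++ r =
          (y.map em₂).reverse ++ (em₂ g :: r) := by simp
      rw [e2]
      exact Iter.cast a5 (by rw [List.length_cons]; ring)
  have h1 := (key y []).does (w := some lz) (doesV_pk .m _) rfl
  have h2 := (doesV_pp .m (st [] ((y.map em₂).reverse ++ []) [] [lz] [] [] [] :
    Store (G₁ ⊕ G₂))).does
  have h3 := does_mvAll (i := .rev) (j := .out) (by decide)
    (st [] ((y.map em₂).reverse ++ []) [] [] [] [] [] : Store (G₁ ⊕ G₂))
  simp only [st_m, up_m, List.tail_cons, st_rev, st_out, up_rev, up_out, List.append_nil,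
    List.reverse_reverse, List.length_reverse, List.length_map] at h1 h2 h3
  refine (h1.seq (h2.seq h3)).mono ?_
  have : y.length * (C + 9 * M + 12) = y.length * (C + 9 * M + 8) + 4 * y.length := by ring
  omega

end

/-- The machine that runs a program. -/
noncomputable def machine {G : Type} [Fintype G] (c : Prog G) : FinTM2 where
  K := K
  k₀ := .inp
  k₁ := .out
  Γ := fun _ => X G
  Λ := Option (Cmd.seq c (.load fun _ => none)).Lab
  main := some (Cmd.seq c (.load fun _ => none)).entry
  σ := Option (X G)
  initialState := none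
  Γk₀Fin := inferInstanceAs (Fintype (X G))
  m
    | none => .halt
    | some l => (Cmd.seq c (.load fun _ => none)).tr some none l

theorem machine_outputs {G : Type} [Fintype G] {c : Prog G} {x y : List (X G)} {t : ℕ}
    (h : Does c (st x [] [] [] [] [] []) t (st [] [] y [] [] [] [])) :
    Nonempty (TM2OutputsInTime (machine c) x (some y) (t + 2)) := by
  obtain ⟨v, n, hn, hr⟩ := h none
  have h1 := Cmd.Run.seq hr (Cmd.Run.load (fun _ => none) v _)
  have h2 := Cmd.tr_correct h1 (machine c).m some none (fun _ => rfl)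
  have h3 : Cmd.Steps (machine c).m 1 ⟨some none, none, st [] [] y [] [] [] []⟩
      ⟨none, none, st [] [] y [] [] [] []⟩ := Cmd.Steps.one rfl
  have h4 := h2.trans h3
  have e1 : initList (machine c) x = ⟨some (some (Cmd.seq c (.load fun _ => none)).entry), none,
      st x [] [] [] [] [] []⟩ := by
    unfold initList
    congr 1
    funext k
    cases k <;> rfl
  have e2 : haltList (machine c) y = ⟨none, none, st [] [] y [] [] [] []⟩ := by
    unfold haltList
    congr 1
    funext k
    cases k <;> rfl
  refine ⟨⟨⟨n + 1 + 1, ?_⟩, ?_⟩⟩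
  · exact (congrArg (fun c' => (flip bind (machine c).step)^[n + 1 + 1] (some c')) e1).trans
      (Eq.trans h4 (congrArg some e2.symm))
  · change n + 1 + 1 ≤ _
    omega

/-- **Polynomial time functions between words are computable by Turing machines in polynomial
time.** -/
theorem ptime_tm {G₁ G₂ : Type} [Fintype G₁] [Fintype G₂] [Enc G₁] [Enc G₂]
    [Inhabited G₂] (hinj : Injective (tr : G₂ → T)) {f : List G₁ → List G₂} (hf : PTime f) :
    Nonempty (TM2ComputableInPolyTime (id : List G₁ → List G₁) (id : List G₂ → List G₂) f) := by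
  classical
  obtain ⟨c, t, ht, hc⟩ := hf (G₁ ⊕ G₂)
  obtain ⟨C, hC⟩ := does_writeP (G₁ := G₁) hinj (L := (Finset.univ : Finset G₂).toList) (by simp)
  let M : ℕ := Finset.univ.sup fun g : G₁ => sz g
  have hM : ∀ g : G₁, sz g ≤ M := fun g =>
    Finset.le_sup (f := fun g : G₁ => sz g) (Finset.mem_univ g)
  let L : List G₁ := (Finset.univ : Finset G₁).toList
  let P : Prog (G₁ ⊕ G₂) := .seq (readP L) (.seq c (writeP (Finset.univ : Finset G₂).toList))
  let time : List G₁ → ℕ := fun x =>
    (sz x * (L.length + M + 9) + 5) + (t x + (sz (f x) * C + 5)) + 2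
  have htime : PB time := (((PB.sz.mul (PB.const _)).add (PB.const 5)).add (ht.add
    ((hf.sz_le.mul (PB.const _)).add (PB.const 5)))).add (PB.const 2)
  obtain ⟨q, hq⟩ := htime
  let Q : Polynomial ℕ := q.comp (Polynomial.X * Polynomial.C (M + 1) + Polynomial.C 1)
  have hQ : ∀ x, time x ≤ Q.eval x.length := by
    intro x
    refine (hq x).trans ?_
    simp only [Q, Polynomial.eval_comp]
    refine eval_mono q ?_
    simp only [Polynomial.eval_add, Polynomial.eval_mul, Polynomial.eval_X, Polynomial.eval_C]
    exact sz_le_of_forall fun g _ => hM g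
  have core : Nonempty (TM2ComputableInPolyTime (fun l : List G₁ => l.map (em₁ (G₂ := G₂)))
      (fun l : List G₂ => l.map (em₂ (G₁ := G₁))) f) := by
    have key : ∀ x : List G₁, Nonempty (TM2OutputsInTime (machine P)
        ((x.map (em₁ (G₂ := G₂))).map (Equiv.refl _).invFun)
        (some (((f x).map (em₂ (G₁ := G₁))).map (Equiv.refl _).invFun))
        (Q.eval (x.map (em₁ (G₂ := G₂))).length)) := by
      intro x
      have h1 := does_readP (G₂ := G₂) (L := L) (by simp [L]) hM x
      have h2 := hc x [] [] [] []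
      rw [List.append_nil, List.append_nil] at h2
      have h3 := hC (f x)
      have h4 : Does P (st (x.map em₁) [] [] [] [] [] []) (time x - 2)
          (st [] [] ((f x).map em₂) [] [] [] []) := by
        refine (h1.seq (h2.seq h3)).mono ?_
        have a1 := Nat.mul_le_mul_right (L.length + M + 9) (length_le_sz x)
        have a2 := Nat.mul_le_mul_right C (length_le_sz (f x))
        simp only [time]
        omega
      obtain ⟨⟨h5, h6⟩⟩ := machine_outputs h4
      have h7 : ∀ l l', l = x.map (em₁ (G₂ := G₂)) → l' = (f x).map (em₂ (G₁ := G₁)) →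
          Nonempty (TM2OutputsInTime (machine P) l (some l')
            (Q.eval (x.map (em₁ (G₂ := G₂))).length)) := by
        rintro _ _ rfl rfl
        refine ⟨⟨h5, h6.trans ?_⟩⟩
        rw [List.length_map]
        refine le_trans ?_ (hQ x)
        have : 2 ≤ time x := by simp only [time]; omega
        omega
      exact h7 _ _ (List.map_id _) (List.map_id _)
    exact ⟨{
      tm := machine P
      inputAlphabet := Equiv.refl _
      outputAlphabet := Equiv.refl _
      time := Q
      outputsFun := fun x => (key x).some }⟩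
  obtain ⟨m₁⟩ := CookLevin.polyTime_map (id : List G₁ → List G₁) (em₁ (G₂ := G₂))
  obtain ⟨m₂⟩ := core
  obtain ⟨m₃⟩ := CookLevin.polyTime_map (fun l : List G₂ => l.map (em₂ (G₁ := G₁)))
    (fun s => match s with
      | Sum.inr (Sum.inr g) => g
      | _ => default)
  obtain ⟨m₄⟩ := CookLevin.polyTime_comp m₁ m₂
  obtain ⟨m₅⟩ := CookLevin.polyTime_comp m₄ m₃
  have e : (fun l : List G₂ => (l.map (em₂ (G₁ := G₁))).map (fun s => match s with
      | Sum.inr (Sum.inr g) => g
      | _ => default)) = id := by
    funext l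
    rw [List.map_map]
    exact List.map_id l
  rw [← e]
  exact ⟨m₅⟩

/-- The same for arbitrary encodings by words. -/
theorem ptime_tm' {G₁ G₂ : Type} [Fintype G₁] [Fintype G₂] [Enc G₁] [Enc G₂]
    [Inhabited G₂] (hinj : Injective (tr : G₂ → T)) {F : List G₁ → List G₂} (hF : PTime F)
    {α β : Type} {ea : α → List G₁} {eb : β → List G₂} {f : α → β}
    (h : ∀ a, F (ea a) = eb (f a)) : Nonempty (TM2ComputableInPolyTime ea eb f) := by
  obtain ⟨M⟩ := ptime_tm hinj hF
  have key : ∀ a, Nonempty (TM2OutputsInTime M.tm ((ea a).map M.inputAlphabet.invFun)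
      (some ((eb (f a)).map M.outputAlphabet.invFun)) (M.time.eval (ea a).length)) := by
    intro a
    have := M.outputsFun (ea a)
    simp only [id, h a] at this
    exact ⟨this⟩
  exact ⟨⟨⟨M.tm, M.inputAlphabet, M.outputAlphabet⟩, M.time, fun a => (key a).some⟩⟩

end Pool.Agent.Lib.PT
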