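import Pool.Agent.Lib.PTime.TM

/-!
# Functions computable in time polynomial in a given bound

The running time need not be polynomial in the size of the argument; it is polynomial in `g a`.
-/

set_option linter.unusedSectionVars false

open Turing Function

namespace Pool.Agent.Lib.PT

open PolyTM (Cmd)
open PolyTM.Cmd (Run)

variable {α β γ δ σ : Type} [Enc α] [Enc β] [Enc γ] [Enc δ] [Enc σ]

/-- The function `f` is computed by programs in time polynomial in `g`. -/
def TB (g : α → ℕ) (f : α → β) : Prop :=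
  ∀ G : Type, ∃ (c : Prog G) (p : Polynomial ℕ), ∀ a, Imp c (tr a) (tr (f a)) (p.eval (g a))

theorem TB.of_ptime {g : α → ℕ} {f : α → β} (hf : PTime f) (hg : ∀ a, sz a ≤ g a) : TB g f := by
  intro G
  obtain ⟨c, t, ⟨p, hp⟩, hc⟩ := hf G
  exact ⟨c, p, fun a => (hc a).mono ((hp a).trans (eval_mono p (hg a)))⟩

theorem TB.sz_le {g : α → ℕ} {f : α → β} (hf : TB g f) (hg : ∀ a, sz a ≤ g a) :
    ∃ p : Polynomial ℕ, ∀ a, sz (f a) ≤ p.eval (g a) := by
  obtain ⟨c, p, hc⟩ := hf Unit
  refine ⟨Polynomial.X + p, fun a => ?_⟩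
  rw [Polynomial.eval_add, Polynomial.eval_X]
  have h1 := (hc a).size_le
  have h2 := hg a
  unfold sz at h2 ⊢
  omega

theorem TB.comp {g : α → ℕ} {h : α → β} {f : β → γ} (hf : PTime f) (hh : TB g h)
    (hg : ∀ a, sz a ≤ g a) : TB g fun a => f (h a) := by
  obtain ⟨q, hq⟩ := hh.sz_le hg
  intro G
  obtain ⟨c, t, ⟨p, hp⟩, hc⟩ := hf G
  obtain ⟨d, r, hd⟩ := hh G
  refine ⟨.seq d c, r + p.comp q, fun a => ?_⟩
  rw [Polynomial.eval_add, Polynomial.eval_comp]
  exact (hd a).seq ((hc (h a)).mono ((hp _).trans (eval_mono p (hq a))))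

/-- **While loops.** -/
theorem TB.iter {f : σ → σ} {b : σ → Bool} {s : α → σ} (N : α → ℕ) (hf : PTime f)
    (hb : PTime b) (hs : PTime s) {g : α → ℕ} (hg : ∀ a, sz a ≤ g a) (hN : ∀ a, N a ≤ g a)
    (hsz : ∀ a, ∀ i ≤ N a, sz (f^[i] (s a)) ≤ g a)
    (hb1 : ∀ a, ∀ i < N a, b (f^[i] (s a)) = true) (hb2 : ∀ a, b (f^[N a] (s a)) = false) :
    TB g fun a => f^[N a] (s a) := by
  intro G
  obtain ⟨cf, tf, ⟨pf, hpf⟩, hcf⟩ := hf G
  obtain ⟨cb, tb, ⟨pb, hpb⟩, hcb⟩ := hb G
  obtain ⟨cs, ts, ⟨ps, hps⟩, hcs⟩ := hs G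
  -- the cost of a test and the cost of a round
  let Q : α → ℕ := fun a => 19 * g a + 9 + (pb.eval (g a) + 5)
  let F : α → ℕ := fun a => pf.eval (g a)
  let PQ : Polynomial ℕ := 19 * Polynomial.X + 9 + (pb + 5)
  have hPQ : ∀ a, PQ.eval (g a) = Q a := by
    intro a
    simp [PQ, Q]
  refine ⟨.seq cs (whl (test cb) isO cf), ps + (Polynomial.X * (PQ + pf + 1) + PQ + 1),
    fun a => ?_⟩
  have hT : (ps + (Polynomial.X * (PQ + pf + 1) + PQ + 1)).eval (g a) =
      ps.eval (g a) + (g a * (Q a + F a + 1) + Q a + 1) := by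
    simp only [Polynomial.eval_add, Polynomial.eval_mul, Polynomial.eval_X, Polynomial.eval_one,
      hPQ, F]
  rw [hT]
  intro i r u R
  refine ((hcs a i r u R).mono ((hps a).trans (eval_mono ps (hg a)))).seq ?_
  have hq : ∀ k ≤ N a, DoesV (test cb) (st i r u ((tr (f^[k] (s a))).enc ++ R) [] [] []) (Q a)
      (st i r u ((tr (f^[k] (s a))).enc ++ R) [] [] []) (some (Sum.inl (b (f^[k] (s a))))) := by
    intro k hk
    refine (doesV_test (hcb _)).mono ?_
    have h1 := hsz a k hk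
    have h2 := (hpb (f^[k] (s a))).trans (eval_mono pb h1)
    simp only at h2
    have h3 : (tr (f^[k] (s a))).size ≤ g a := h1
    simp only [Q]
    omega
  have key : ∀ j k, j + k = N a → Iter (test cb) isO cf
      (st i r u ((tr (f^[k] (s a))).enc ++ R) [] [] []) (j * (Q a + F a + 1))
      (st i r u ((tr (f^[N a] (s a))).enc ++ R) [] [] []) := by
    intro j
    induction j with
    | zero =>
      intro k hk
      rw [Nat.zero_add] at hk
      rw [hk, Nat.zero_mul]
      exact .refl _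
    | succ j ih =>
      intro k hk
      have h1 := ih (k + 1) (by omega)
      have h2 := hq k (by omega)
      rw [hb1 a k (by omega)] at h2
      have h3 := hcf (f^[k] (s a)) i r u R
      rw [← iterate_succ_apply' f k (s a)] at h3
      have h4 : tf (f^[k] (s a)) ≤ F a :=
        (hpf _).trans (eval_mono pf (hsz a k (by omega)))
      exact Iter.cast (Iter.step (p := isO) h2 rfl (h3.mono h4) h1) (by ring)
  have h1 := key (N a) 0 (by omega)
  have h2 := hq (N a) le_rfl
  rw [hb2 a] at h2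
  refine (Iter.does h1 h2 rfl).mono ?_
  have := Nat.mul_le_mul_right (Q a + F a + 1) (hN a)
  omega

/-- The power `b ^ e` together with other data. -/
theorem TB.pow {e b : α → ℕ} {s : α → σ} (he : PTime e) (hb : PTime b) (hs : PTime s)
    {g : α → ℕ} (hg : ∀ a, sz a ≤ g a) (hb1 : ∀ a, 1 ≤ b a)
    (hB : ∀ a, 2 * e a + (2 * b a + (2 * b a ^ e a + sz (s a))) + 6 ≤ g a) :
    TB g fun a => (b a ^ e a, s a) := by
  let f : ℕ × ℕ × ℕ × σ → ℕ × ℕ × ℕ × σ := fun q => (q.1 - 1, q.2.1, q.2.2.1 * q.2.1, q.2.2.2)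
  have key : ∀ a, ∀ i ≤ e a, f^[i] (e a, b a, 1, s a) = (e a - i, b a, b a ^ i, s a) := by
    intro a i
    induction i with
    | zero => intro _; simp
    | succ i ih =>
      intro hi
      rw [iterate_succ_apply', ih (by omega)]
      simp only [f, pow_succ, Prod.mk.injEq, true_and, and_true]
      omega
  have hf : PTime f := by fun_prop
  have hS : PTime fun a => (e a, b a, 1, s a) := by fun_prop
  have hbt : PTime fun q : ℕ × ℕ × ℕ × σ => !(decide (q.1 = 0)) := by fun_prop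
  have h := TB.iter (f := f) (b := fun q => !(decide (q.1 = 0))) (s := fun a => (e a, b a, 1, s a))
    e hf hbt hS hg (fun a => by have := hB a; omega) ?_ ?_ ?_
  · have h2 := TB.comp (f := fun q : ℕ × ℕ × ℕ × σ => (q.2.2.1, q.2.2.2)) (by fun_prop) h hg
    have e : (fun a => (b a ^ e a, s a)) =
        fun a => (fun q : ℕ × ℕ × ℕ × σ => (q.2.2.1, q.2.2.2)) (f^[e a] (e a, b a, 1, s a)) := by
      funext a
      rw [key a _ le_rfl]
    rw [e]
    exact h2
  · intro a i hi
    rw [key a i hi, sz_mk, sz_mk, sz_mk, sz_nat, sz_nat, sz_nat]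
    have h1 : b a ^ i ≤ b a ^ e a := Nat.pow_le_pow_right (hb1 a) hi
    have := hB a
    omega
  · intro a i hi
    rw [key a i hi.le]
    simp only [Bool.not_eq_true', decide_eq_false_iff_not]
    omega
  · intro a
    rw [key a _ le_rfl]
    simp

/-! ### Machines -/

/-- The machine `M` computes `l'` from `l` within `t` steps. -/
def Outputs {A B : Type} (M : TM2ComputableAux A B) (l : List A) (l' : List B) (t : ℕ) : Prop :=
  Nonempty (TM2OutputsInTime M.tm (l.map M.inputAlphabet.invFun)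
    (some (l'.map M.outputAlphabet.invFun)) t)

theorem Outputs.mono {A B : Type} {M : TM2ComputableAux A B} {l : List A} {l' : List B}
    {t t' : ℕ} (h : Outputs M l l' t) (ht : t ≤ t') : Outputs M l l' t' := by
  obtain ⟨n, hn, hs⟩ := CookLevin.outputs_iff.1 h
  exact CookLevin.outputs_iff.2 ⟨n, hn.trans ht, hs⟩

theorem exists_comp {A B C : Type} [Inhabited B] (M₁ : TM2ComputableAux A B)
    (M₂ : TM2ComputableAux B C) : ∃ M : TM2ComputableAux A C, ∀ l₁ l₂ l₃ t₁ t₂,
      Outputs M₁ l₁ l₂ t₁ → Outputs M₂ l₂ l₃ t₂ →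
      Outputs M l₁ l₃ (t₁ + 2 * (l₂.length + 1) + t₂) := by
  have : Fintype B := @Fintype.ofEquiv _ _ M₂.tm.Γk₀Fin M₂.inputAlphabet
  refine ⟨⟨CookLevin.compTM M₁.tm M₂.tm M₁.outputAlphabet M₂.inputAlphabet.symm default,
    M₁.inputAlphabet, M₂.outputAlphabet⟩, fun l₁ l₂ l₃ t₁ t₂ h₁ h₂ => ?_⟩
  unfold Outputs at h₁ h₂
  have e : ((l₂.map M₁.outputAlphabet.invFun).map M₁.outputAlphabet).map
      M₂.inputAlphabet.symm = l₂.map M₂.inputAlphabet.invFun := by
    rw [List.map_map, List.map_map]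
    refine List.map_congr_left fun y _ => ?_
    show M₂.inputAlphabet.symm (M₁.outputAlphabet (M₁.outputAlphabet.symm y)) = _
    rw [Equiv.apply_symm_apply]
    rfl
  rw [← e] at h₂
  have o := CookLevin.compTM_outputs (d := default) h₁ h₂
  rw [List.length_map] at o
  exact o

theorem exists_map {A B : Type} [Fintype A] [Fintype B] [Inhabited B] (h : A → B) :
    ∃ M : TM2ComputableAux A B, ∃ p : Polynomial ℕ, ∀ l, Outputs M l (l.map h)
      (p.eval l.length) := by
  obtain ⟨m⟩ := CookLevin.polyTime_map (id : List A → List A) h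
  exact ⟨⟨m.tm, m.inputAlphabet, m.outputAlphabet⟩, m.time, fun l => ⟨m.outputsFun l⟩⟩

/-- **Functions between words that are computable in time polynomial in `g` are computable by
Turing machines in time polynomial in `g`.** -/
theorem tb_tm {G₁ G₂ : Type} [Fintype G₁] [Fintype G₂] [Enc G₁] [Enc G₂] [Inhabited G₁]
    [Inhabited G₂] (hinj : Injective (tr : G₂ → T)) {f : List G₁ → List G₂}
    {g : List G₁ → ℕ} (hg : ∀ a, sz a ≤ g a) (hf : TB g f) :
    ∃ (M : TM2ComputableAux G₁ G₂) (p : Polynomial ℕ), ∀ w, Outputs M w (f w) (p.eval (g w)) := by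
  classical
  obtain ⟨pf, hpf⟩ := hf.sz_le hg
  obtain ⟨c, t, hc⟩ := hf (G₁ ⊕ G₂)
  obtain ⟨C, hC⟩ := does_writeP (G₁ := G₁) hinj (L := (Finset.univ : Finset G₂).toList) (by simp)
  let M : ℕ := Finset.univ.sup fun g : G₁ => sz g
  have hM : ∀ g : G₁, sz g ≤ M := fun g =>
    Finset.le_sup (f := fun g : G₁ => sz g) (Finset.mem_univ g)
  let L : List G₁ := (Finset.univ : Finset G₁).toList
  let P : Prog (G₁ ⊕ G₂) := .seq (readP L) (.seq c (writeP (Finset.univ : Finset G₂).toList))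
  let time : Polynomial ℕ :=
    (Polynomial.X * Polynomial.C (L.length + M + 9) + 5) + (t + (pf * Polynomial.C C + 5)) + 2
  have htime : ∀ x, time.eval (g x) =
      (g x * (L.length + M + 9) + 5) + (t.eval (g x) + (pf.eval (g x) * C + 5)) + 2 := by
    intro x
    simp [time]
  let M₂ : TM2ComputableAux (X (G₁ ⊕ G₂)) (X (G₁ ⊕ G₂)) := ⟨machine P, Equiv.refl _, Equiv.refl _⟩
  have key : ∀ x : List G₁, Outputs M₂ (x.map (em₁ (G₂ := G₂))) ((f x).map (em₂ (G₁ := G₁)))
      (time.eval (g x)) := by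
    intro x
    have h1 := does_readP (G₂ := G₂) (L := L) (by simp [L]) hM x
    have h2 := hc x [] [] [] []
    rw [List.append_nil, List.append_nil] at h2
    have h3 := hC (f x)
    have h4 : Does P (st (x.map em₁) [] [] [] [] [] []) (time.eval (g x) - 2)
        (st [] [] ((f x).map em₂) [] [] [] []) := by
      refine (h1.seq (h2.seq h3)).mono ?_
      have a1 := Nat.mul_le_mul_right (L.length + M + 9) ((length_le_sz x).trans (hg x))
      have a2 := Nat.mul_le_mul_right C ((length_le_sz (f x)).trans (hpf x))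
      rw [htime]
      omega
    obtain ⟨⟨h5, h6⟩⟩ := machine_outputs h4
    have h7 : ∀ l l', l = x.map (em₁ (G₂ := G₂)) → l' = (f x).map (em₂ (G₁ := G₁)) →
        Nonempty (TM2OutputsInTime (machine P) l (some l') (time.eval (g x))) := by
      rintro _ _ rfl rfl
      refine ⟨⟨h5, h6.trans ?_⟩⟩
      have : 2 ≤ time.eval (g x) := by rw [htime]; omega
      omega
    exact h7 _ _ (List.map_id _) (List.map_id _)
  obtain ⟨M₁, p₁, h₁⟩ := exists_map (em₁ (G₁ := G₁) (G₂ := G₂))
  obtain ⟨M₃, p₃, h₃⟩ := exists_map (A := X (G₁ ⊕ G₂)) (B := G₂) (fun s => match s with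
      | Sum.inr (Sum.inr g) => g
      | _ => default)
  obtain ⟨M₁₂, h₁₂⟩ := exists_comp M₁ M₂
  obtain ⟨M₁₂₃, h₁₂₃⟩ := exists_comp M₁₂ M₃
  refine ⟨M₁₂₃, p₁ + 2 * (Polynomial.X + 1) + time + 2 * (pf + 1) + p₃.comp pf, fun w => ?_⟩
  have a := h₁₂₃ _ _ _ _ _ (h₁₂ _ _ _ _ _ (h₁ w) (key w)) (h₃ ((f w).map (em₂ (G₁ := G₁))))
  have e : ((f w).map (em₂ (G₁ := G₁))).map (fun s => match s with
      | Sum.inr (Sum.inr g) => g
      | _ => default) = f w := by
    rw [List.map_map]
    exact List.map_id _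
  rw [e] at a
  refine a.mono ?_
  have b1 : w.length ≤ g w := (length_le_sz w).trans (hg w)
  have b2 : (f w).length ≤ pf.eval (g w) := (length_le_sz (f w)).trans (hpf w)
  have b3 := eval_mono p₁ b1
  have b4 := eval_mono p₃ b2
  simp only [Polynomial.eval_add, Polynomial.eval_mul, Polynomial.eval_X, Polynomial.eval_one,
    Polynomial.eval_comp, Polynomial.eval_ofNat, List.length_map] at b3 b4 ⊢
  omega

end Pool.Agent.Lib.PT
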