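import Pool.Agent.Lib.PTime.Nat

/-!
# Polynomial time functions: equality tests
-/

open Turing Function

namespace Pool.Agent.Lib.PT

/-- One step of the comparison of a list of pairs of trees. -/
def eqStep (s : Bool × List (T × T)) : Bool × List (T × T) :=
  match s.2 with
  | [] => s
  | p :: L =>
    bif p.1.isCons then
      (bif p.2.isCons then (s.1, (p.1.hd, p.2.hd) :: (p.1.tl, p.2.tl) :: L) else (false, []))
    else (bif p.2.isCons then (false, []) else (s.1, L))

theorem ptime_eqStep : PTime eqStep := by
  have h1 : PTime fun p : (Bool × List (T × T)) × (T × T) × List (T × T) => p.2.1.1.isCons :=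
    PTime.isCons.comp (by fun_prop)
  have h2 : PTime fun p : (Bool × List (T × T)) × (T × T) × List (T × T) => p.2.1.2.isCons :=
    PTime.isCons.comp (by fun_prop)
  have h3 : PTime fun p : (Bool × List (T × T)) × (T × T) × List (T × T) => p.2.1.1.hd :=
    PTime.hd.comp (by fun_prop)
  have h4 : PTime fun p : (Bool × List (T × T)) × (T × T) × List (T × T) => p.2.1.2.hd :=
    PTime.hd.comp (by fun_prop)
  have h5 : PTime fun p : (Bool × List (T × T)) × (T × T) × List (T × T) => p.2.1.1.tl :=
    PTime.tl.comp (by fun_prop)
  have h6 : PTime fun p : (Bool × List (T × T)) × (T × T) × List (T × T) => p.2.1.2.tl :=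
    PTime.tl.comp (by fun_prop)
  refine PTime.listCases (l := fun s : Bool × List (T × T) => s.2) (f := fun s => s)
    (g := fun q => bif q.2.1.1.isCons then
      (bif q.2.1.2.isCons then (q.1.1, (q.2.1.1.hd, q.2.1.2.hd) :: (q.2.1.1.tl, q.2.1.2.tl) ::
        q.2.2) else (false, []))
    else (bif q.2.1.2.isCons then (false, []) else (q.1.1, q.2.2))) (by fun_prop) (by fun_prop)
    ?_ ?_ ?_
  · exact PTime.cond h1 (PTime.cond h2 (by fun_prop) (by fun_prop))
      (PTime.cond h2 (by fun_prop) (by fun_prop))
  · intro s h
    simp only [eqStep, h]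
  · intro s x t h
    simp only [eqStep, h]

/-- The value of a state. -/
def eqVal (s : Bool × List (T × T)) : Bool := s.1 && s.2.all fun p => decide (p.1 = p.2)

theorem eqVal_step (s : Bool × List (T × T)) : eqVal (eqStep s) = eqVal s := by
  obtain ⟨b, L⟩ := s
  cases L with
  | nil => rfl
  | cons p L =>
    obtain ⟨x, y⟩ := p
    cases x <;> cases y <;> simp [eqStep, eqVal, T.isCons, T.hd, T.tl, Bool.and_assoc]

theorem sz_eqStep (s : Bool × List (T × T)) : sz (eqStep s).2 ≤ sz s.2 := by
  obtain ⟨b, L⟩ := s
  cases L with
  | nil => exact le_rfl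
  | cons p L =>
    obtain ⟨x, y⟩ := p
    have hL := sz_pos L
    cases x with
    | nil =>
      cases y with
      | nil => simp [eqStep, T.isCons]; omega
      | cons c d => simp [eqStep, T.isCons]
    | cons a b =>
      cases y with
      | nil => simp [eqStep, T.isCons]
      | cons c d =>
        have h1 : sz (T.cons a b) = sz a + sz b + 1 := rfl
        have h2 : sz (T.cons c d) = sz c + sz d + 1 := rfl
        simp only [eqStep, T.isCons, T.hd, T.tl, cond_true, sz_cons, sz_mk, h1, h2]
        omega

/-- The total size of the first components. -/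
def eqMu (s : Bool × List (T × T)) : ℕ := (s.2.map fun p => p.1.size).sum

theorem exists_eqStep : ∀ (n : ℕ) (s : Bool × List (T × T)), eqMu s ≤ n →
    ∃ k ≤ n, (eqStep^[k] s).2 = [] := by
  intro n
  induction n with
  | zero =>
    intro s h
    obtain ⟨b, L⟩ := s
    cases L with
    | nil => exact ⟨0, le_rfl, rfl⟩
    | cons p L =>
      have := T.size_pos p.1
      simp [eqMu] at h
      omega
  | succ n ih =>
    intro s h
    obtain ⟨b, L⟩ := s
    cases L with
    | nil => exact ⟨0, by omega, rfl⟩
    | cons p L =>
      have h' : eqMu (eqStep (b, p :: L)) ≤ n := by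
        obtain ⟨x, y⟩ := p
        simp only [eqMu, List.map_cons, List.sum_cons] at h
        cases x with
        | nil => cases y <;> simp [eqStep, T.isCons, eqMu, T.size] at h ⊢; omega
        | cons a b =>
          cases y with
          | nil => simp [eqStep, T.isCons, eqMu]
          | cons c d =>
            simp only [T.size] at h
            simp only [eqStep, T.isCons, eqMu, T.hd, T.tl, cond_true, List.map_cons,
              List.sum_cons]
            omega
      obtain ⟨k, hk, h1⟩ := ih _ h'
      exact ⟨k + 1, by omega, by rw [iterate_succ_apply]; exact h1⟩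

open Classical in
theorem ptime_eqTree : PTime fun p : T × T => decide (p.1 = p.2) := by
  have hex : ∀ p : T × T, ∃ k, (eqStep^[k] (true, [p])).2 = [] := fun p => by
    obtain ⟨k, -, h⟩ := exists_eqStep _ (true, [p]) le_rfl
    exact ⟨k, h⟩
  have hval : ∀ (k : ℕ) (s : Bool × List (T × T)), eqVal (eqStep^[k] s) = eqVal s := by
    intro k
    induction k with
    | zero => intro s; rfl
    | succ k ih => intro s; rw [iterate_succ_apply, ih, eqVal_step]
  have hsz : ∀ (k : ℕ) (s : Bool × List (T × T)), sz (eqStep^[k] s).2 ≤ sz s.2 := by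
    intro k
    induction k with
    | zero => intro s; exact le_rfl
    | succ k ih => intro s; rw [iterate_succ_apply]; exact (ih _).trans (sz_eqStep s)
  have h := PTime.iter (f := eqStep) (b := fun s => !s.2.isEmpty)
    (s := fun p : T × T => (true, [p])) (fun p => Nat.find (hex p)) ptime_eqStep (by fun_prop)
    (by fun_prop) (B := fun p => sz p + 6) (PB.sz.add (PB.const 6)) ?_ ?_ ?_ ?_
  · refine h.fst'.of_eq fun p => ?_
    have h1 := hval (Nat.find (hex p)) (true, [p])
    have h2 := Nat.find_spec (hex p)
    rw [eqVal, h2] at h1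
    simpa [eqVal] using h1
  · intro p
    obtain ⟨k, hk, h1⟩ := exists_eqStep _ (true, [p]) le_rfl
    refine (Nat.find_min' (hex p) h1).trans (hk.trans ?_)
    simp only [eqMu, List.map_cons, List.map_nil, List.sum_cons, List.sum_nil]
    have : sz p = p.1.size + p.2.size + 1 := rfl
    omega
  · intro p k _
    have h1 := hsz k (true, [p])
    have h2 := sz_bool (eqStep^[k] (true, [p])).1
    have h3 : sz (eqStep^[k] (true, [p])) = sz (eqStep^[k] (true, [p])).1 +
      sz (eqStep^[k] (true, [p])).2 + 1 := rfl
    rw [h3]
    simp only [sz_cons, sz_nil] at h1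
    omega
  · intro p k hk
    have := Nat.find_min (hex p) hk
    simpa using this
  · intro p
    have := Nat.find_spec (hex p)
    simpa using this

instance {n : ℕ} : Enc (Fin n) := ⟨fun i => tr i.1⟩

/-- Types for which the tree determines the element. -/
class EncInj (α : Type) [Enc α] : Prop where
  inj : Injective (tr : α → T)

variable {α β : Type} [Enc α] [Enc β]

theorem trL_injective [EncInj α] : ∀ l l' : List α, tr l = tr l' → l = l' := by
  intro l
  induction l with
  | nil =>
    intro l' h
    cases l' with
    | nil => rfl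
    | cons y l' => exact absurd h (by rw [tr_cons]; simp)
  | cons x l ih =>
    intro l' h
    cases l' with
    | nil => exact absurd h (by rw [tr_cons]; simp)
    | cons y l' =>
      rw [tr_cons, tr_cons, T.cons.injEq] at h
      rw [EncInj.inj h.1, ih l' h.2]

instance : EncInj T := ⟨fun _ _ h => h⟩
instance : EncInj Unit := ⟨fun _ _ _ => rfl⟩
instance : EncInj Bool := ⟨fun a b h => by cases a <;> cases b <;> first | rfl | cases h⟩
instance : EncInj ℕ := ⟨fun a b h => by
  have := sz_nat a
  have h2 := sz_nat b
  have h3 : sz a = sz b := congrArg T.size h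
  omega⟩
instance {n : ℕ} : EncInj (Fin n) := ⟨fun _ _ h => Fin.ext (EncInj.inj h)⟩
instance [EncInj α] : EncInj (List α) := ⟨fun l l' h => trL_injective l l' h⟩
instance [EncInj α] [EncInj β] : EncInj (α × β) := ⟨fun p q h => by
  obtain ⟨a, b⟩ := p
  obtain ⟨c, d⟩ := q
  rw [tr_mk, tr_mk, T.cons.injEq] at h
  rw [EncInj.inj h.1, EncInj.inj h.2]⟩
instance [EncInj α] : EncInj (Option α) := ⟨fun a b h => by
  cases a with
  | none =>
    cases b with
    | none => rfl
    | some b => cases h
  | some a =>
    cases b with
    | none => cases h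
    | some b =>
      have h' : T.cons .nil (tr a) = T.cons .nil (tr b) := h
      rw [T.cons.injEq] at h'
      rw [EncInj.inj h'.2]⟩
instance [EncInj α] [EncInj β] : EncInj (α ⊕ β) := ⟨fun a b h => by
  cases a with
  | inl a =>
    cases b with
    | inl b =>
      have h' : T.cons .nil (tr a) = T.cons .nil (tr b) := h
      rw [T.cons.injEq] at h'
      rw [EncInj.inj h'.2]
    | inr b =>
      have h' : T.cons .nil (tr a) = T.cons (.cons .nil .nil) (tr b) := h
      rw [T.cons.injEq] at h'
      exact absurd h'.1 (by simp)
  | inr a =>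
    cases b with
    | inr b =>
      have h' : T.cons (.cons .nil .nil) (tr a) = T.cons (.cons .nil .nil) (tr b) := h
      rw [T.cons.injEq] at h'
      rw [EncInj.inj h'.2]
    | inl b =>
      have h' : T.cons (.cons .nil .nil) (tr a) = T.cons .nil (tr b) := h
      rw [T.cons.injEq] at h'
      exact absurd h'.1 (by simp)⟩

@[fun_prop] theorem PTime.eq [EncInj β] [DecidableEq β] {f g : α → β} (hf : PTime f)
    (hg : PTime g) : PTime fun a => decide (f a = g a) := by
  classical
  have h1 : PTime fun b : β => tr b := PTime.same _ fun _ => rfl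
  have h := ptime_eqTree.comp ((h1.comp hf).pair (h1.comp hg))
  refine h.of_eq fun a => ?_
  simp only
  rw [decide_eq_decide]
  exact ⟨fun h => EncInj.inj h, fun h => by rw [h]⟩

end Pool.Agent.Lib.PT
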