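import Pool.Agent.Lib.PolyTM.Cmd

/-!
# Polynomial time functions on trees: the machine programs

A value is a binary tree, written in prefix notation on the main stack of a machine.
The programs of this file manipulate the values on the top of the main stack.
-/

open Turing Function

namespace Pool.Agent.Lib.PT

/-- Binary trees. -/
inductive T : Type
  | nil : T
  | cons (a b : T) : T
  deriving DecidableEq, Inhabited

/-- The stacks. -/
inductive K : Type
  | inp | rev | out | m | a | b | c
  deriving DecidableEq

instance : Fintype K where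
  elems := {.inp, .rev, .out, .m, .a, .b, .c}
  complete x := by cases x <;> simp

/-- The letters: the two letters of the prefix notation and the letters of `G`. -/
abbrev X (G : Type) := Bool ⊕ G

variable {G : Type}

/-- The letter for `nil`. -/
abbrev lz : X G := Sum.inl false

/-- The letter for `cons`. -/
abbrev lo : X G := Sum.inl true

/-- Programs. -/
abbrev Prog (G : Type) := PolyTM.Cmd (fun _ : K => X G) (Option (X G))

/-- The contents of the stacks. -/
abbrev Store (G : Type) := K → List (X G)

/-- The prefix notation of a tree. -/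
def T.enc : T → List (X G)
  | .nil => [lz]
  | .cons a b => lo :: (a.enc ++ b.enc)

/-- The size of a tree. -/
def T.size : T → ℕ
  | .nil => 1
  | .cons a b => a.size + b.size + 1

theorem T.length_enc (x : T) : (x.enc : List (X G)).length = x.size := by
  induction x with
  | nil => rfl
  | cons a b iha ihb => simp [enc, size, iha, ihb]

theorem T.enc_cons (x y : T) (R : List (X G)) :
    (T.cons x y).enc ++ R = lo :: (x.enc ++ (y.enc ++ R)) := by
  simp [T.enc]

theorem T.size_pos (x : T) : 0 < x.size := by
  cases x <;> simp [size]

open PolyTM (Cmd)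
open PolyTM.Cmd (Run)

/-- The program `c` changes `S` to `S'` in at most `t` steps. -/
def Does (c : Prog G) (S : Store G) (t : ℕ) (S' : Store G) : Prop :=
  ∀ v, ∃ v' n, n ≤ t ∧ Run c v S n v' S'

/-- The same, with the final internal state `w`. -/
def DoesV (c : Prog G) (S : Store G) (t : ℕ) (S' : Store G) (w : Option (X G)) : Prop :=
  ∀ v, ∃ n, n ≤ t ∧ Run c v S n w S'

theorem DoesV.does {c : Prog G} {S S' : Store G} {t : ℕ} {w : Option (X G)}
    (h : DoesV c S t S' w) : Does c S t S' := by
  intro v
  obtain ⟨n, hn, hr⟩ := h v
  exact ⟨w, n, hn, hr⟩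

theorem Does.mono {c : Prog G} {S S' : Store G} {t t' : ℕ} (h : Does c S t S') (ht : t ≤ t') :
    Does c S t' S' := by
  intro v
  obtain ⟨v', n, hn, hr⟩ := h v
  exact ⟨v', n, hn.trans ht, hr⟩

theorem DoesV.mono {c : Prog G} {S S' : Store G} {t t' : ℕ} {w : Option (X G)}
    (h : DoesV c S t S' w) (ht : t ≤ t') : DoesV c S t' S' w := by
  intro v
  obtain ⟨n, hn, hr⟩ := h v
  exact ⟨n, hn.trans ht, hr⟩

theorem Does.seq {c d : Prog G} {S₀ S₁ S₂ : Store G} {t₁ t₂ : ℕ} (h₁ : Does c S₀ t₁ S₁)
    (h₂ : Does d S₁ t₂ S₂) : Does (.seq c d) S₀ (t₁ + t₂) S₂ := by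
  intro v
  obtain ⟨v', n, hn, hr⟩ := h₁ v
  obtain ⟨v'', n', hn', hr'⟩ := h₂ v'
  exact ⟨v'', n + n', Nat.add_le_add hn hn', .seq hr hr'⟩

theorem Does.seqV {c d : Prog G} {S₀ S₁ S₂ : Store G} {t₁ t₂ : ℕ} {w : Option (X G)}
    (h₁ : Does c S₀ t₁ S₁) (h₂ : DoesV d S₁ t₂ S₂ w) : DoesV (.seq c d) S₀ (t₁ + t₂) S₂ w := by
  intro v
  obtain ⟨v', n, hn, hr⟩ := h₁ v
  obtain ⟨n', hn', hr'⟩ := h₂ v'
  exact ⟨n + n', Nat.add_le_add hn hn', .seq hr hr'⟩

/-- A program that starts in the internal state `u`. -/
def DoesU (c : Prog G) (u : Option (X G)) (S : Store G) (t : ℕ) (S' : Store G) : Prop :=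
  ∃ v' n, n ≤ t ∧ Run c u S n v' S'

theorem DoesV.seqU {c d : Prog G} {S₀ S₁ S₂ : Store G} {t₁ t₂ : ℕ} {w : Option (X G)}
    (h₁ : DoesV c S₀ t₁ S₁ w) (h₂ : DoesU d w S₁ t₂ S₂) : Does (.seq c d) S₀ (t₁ + t₂) S₂ := by
  intro v
  obtain ⟨n, hn, hr⟩ := h₁ v
  obtain ⟨v', n', hn', hr'⟩ := h₂
  exact ⟨v', n + n', Nat.add_le_add hn hn', .seq hr hr'⟩

theorem Does.u {c : Prog G} {S S' : Store G} {t : ℕ} (h : Does c S t S') (u : Option (X G)) :
    DoesU c u S t S' := h u

/-- Push a letter. -/
abbrev psh (k : K) (x : X G) : Prog G := .push k fun _ => x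

/-- Pop a letter into the internal state. -/
abbrev pp (k : K) : Prog G := .pop k fun _ o => o

/-- Read the top letter. -/
abbrev pk (k : K) : Prog G := .peek k fun _ o => o

theorem does_psh (k : K) (x : X G) (S : Store G) : Does (psh k x) S 1 (update S k (x :: S k)) :=
  fun v => ⟨_, 1, le_rfl, .push k _ v S⟩

theorem doesV_pp (k : K) (S : Store G) :
    DoesV (pp k) S 1 (update S k (S k).tail) (S k).head? :=
  fun v => ⟨1, le_rfl, .pop k _ v S⟩

theorem doesV_pk (k : K) (S : Store G) : DoesV (pk k) S 1 S (S k).head? :=
  fun v => ⟨1, le_rfl, .peek k _ v S⟩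

theorem DoesU.ite_true {p : Option (X G) → Bool} {c d : Prog G} {u : Option (X G)}
    {S S' : Store G} {t : ℕ} (hp : p u = true) (h : DoesU c u S t S') :
    DoesU (.ite p c d) u S (t + 1) S' := by
  obtain ⟨v', n, hn, hr⟩ := h
  exact ⟨v', n + 1, Nat.succ_le_succ hn, .ite_true hp hr⟩

theorem DoesU.ite_false {p : Option (X G) → Bool} {c d : Prog G} {u : Option (X G)}
    {S S' : Store G} {t : ℕ} (hp : p u = false) (h : DoesU d u S t S') :
    DoesU (.ite p c d) u S (t + 1) S' := by
  obtain ⟨v', n, hn, hr⟩ := h
  exact ⟨v', n + 1, Nat.succ_le_succ hn, .ite_false hp hr⟩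

/-! ### Loops -/

/-- While the test (which sets the internal state) succeeds, do the body. -/
def whl (q : Prog G) (p : Option (X G) → Bool) (c : Prog G) : Prog G :=
  .seq q (.loop p (.seq c q))

/-- `Iter q p c S n S'`: some rounds of the loop lead from `S` to `S'`, in time `n`. -/
inductive Iter (q : Prog G) (p : Option (X G) → Bool) (c : Prog G) :
    Store G → ℕ → Store G → Prop
  | refl (S : Store G) : Iter q p c S 0 S
  | step {S S₁ S' : Store G} {w : Option (X G)} {r t n : ℕ} : DoesV q S r S w → p w = true →
      Does c S t S₁ → Iter q p c S₁ n S' → Iter q p c S (r + t + 1 + n) S'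

theorem Iter.trans {q : Prog G} {p : Option (X G) → Bool} {c : Prog G} {S S' S'' : Store G}
    {n n' : ℕ} (h : Iter q p c S n S') (h' : Iter q p c S' n' S'') :
    Iter q p c S (n + n') S'' := by
  induction h with
  | refl S => rwa [Nat.zero_add]
  | step h1 h2 h3 _ ih =>
    rw [Nat.add_assoc]
    exact .step h1 h2 h3 (ih h')

theorem Iter.cast {q : Prog G} {p : Option (X G) → Bool} {c : Prog G} {S S' : Store G}
    {n n' : ℕ} (h : Iter q p c S n S') (e : n = n') : Iter q p c S n' S' := e ▸ h

theorem Iter.does {q : Prog G} {p : Option (X G) → Bool} {c : Prog G} {S S' : Store G}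
    {w : Option (X G)} {n r : ℕ} (h : Iter q p c S n S') (hq : DoesV q S' r S' w)
    (hp : p w = false) : Does (whl q p c) S (n + r + 1) S' := by
  have key : ∀ {S S' : Store G} {n : ℕ}, Iter q p c S n S' → DoesV q S' r S' w →
      ∀ v, ∃ v₁ n₁ n₂, n₁ + n₂ ≤ n + r + 1 ∧ Run q v S n₁ v₁ S ∧
      Run (.loop p (.seq c q)) v₁ S n₂ w S' := by
    intro S S' n h
    induction h with
    | refl S =>
      intro hq v
      obtain ⟨k, hk, hr⟩ := hq v
      exact ⟨w, k, 1, by omega, hr, .loop_false hp⟩
    | @step S S₁ S' w' r' t n h1 h2 h3 h4 ih =>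
      intro hq v
      obtain ⟨k, hk, hr⟩ := h1 v
      obtain ⟨v₂, k₂, hk₂, hr₂⟩ := h3 w'
      obtain ⟨v₁, n₁, n₂, hn, hr₁, hr₃⟩ := ih hq v₂
      exact ⟨w', k, (k₂ + n₁) + n₂ + 1, by omega, hr, .loop_true h2 (.seq hr₂ hr₁) hr₃⟩
  intro v
  obtain ⟨v₁, n₁, n₂, hn, h1, h2⟩ := key h hq v
  exact ⟨w, n₁ + n₂, hn, .seq h1 h2⟩

/-- The loop: while the stack `k` is not empty. -/
abbrev wne (k : K) (c : Prog G) : Prog G := whl (pk k) Option.isSome c

/-- Rounds of the loop `wne`. -/
abbrev ItNE (k : K) (c : Prog G) (S : Store G) (n : ℕ) (S' : Store G) : Prop :=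
  Iter (pk k) Option.isSome c S n S'

theorem ItNE.step {k : K} {c : Prog G} {S S₁ S' : Store G} {t n : ℕ} (h : S k ≠ [])
    (hc : Does c S t S₁) (h' : ItNE k c S₁ n S') : ItNE k c S (t + 2 + n) S' := by
  refine Iter.cast (Iter.step (doesV_pk k S) ?_ hc h') (by omega)
  cases hS : S k with
  | nil => exact absurd hS h
  | cons x l => rfl

theorem ItNE.one {k : K} {c : Prog G} {S S' : Store G} {t : ℕ} (h : S k ≠ [])
    (hc : Does c S t S') : ItNE k c S (t + 2) S' :=
  ItNE.step h hc (.refl _)

theorem ItNE.does {k : K} {c : Prog G} {S S' : Store G} {n : ℕ} (h : ItNE k c S n S')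
    (h' : S' k = []) : Does (wne k c) S (n + 2) S' := by
  refine Iter.does h (doesV_pk k S') ?_
  rw [h']
  rfl

/-! ### Moving the contents of a stack -/

/-- Move all letters of the stack `i` to the stack `j`. -/
def mvAll (i j : K) : Prog G := wne i (.seq (pp i) (.push j fun v => v.getD lz))

theorem does_popPush {i j : K} {x : X G} {l : List (X G)} {S : Store G} (hij : i ≠ j)
    (h : S i = x :: l) : Does (.seq (pp i) (.push j fun v => v.getD lz)) S 2
      (update (update S j (x :: S j)) i l) := by
  intro v
  refine ⟨some x, 2, le_rfl, ?_⟩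
  have h1 := Run.pop (Γ := fun _ : K => X G) i (fun (_ : Option (X G)) o => o) v S
  rw [h, List.head?_cons, List.tail_cons] at h1
  have h2 := Run.push (Γ := fun _ : K => X G) j (fun (v : Option (X G)) => v.getD lz) (some x)
    (update S i l)
  rw [update_of_ne hij.symm, update_comm hij] at h2
  exact Run.seq h1 h2

theorem itNE_mvAll {i j : K} (hij : i ≠ j) (l : List (X G)) : ∀ {S : Store G}, S i = l →
    ItNE i (.seq (pp i) (.push j fun v => v.getD lz)) S (4 * l.length)
      (update (update S j (l.reverse ++ S j)) i []) := by
  induction l with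
  | nil =>
    intro S h
    have e : update (update S j ([].reverse ++ S j)) i [] = S := by
      funext k
      by_cases hk : k = i
      · subst hk; simp [h]
      · rw [update_of_ne hk]
        by_cases hk' : k = j
        · subst hk'; simp
        · rw [update_of_ne hk']
    rw [e]
    exact .refl _
  | cons x l ih =>
    intro S h
    have h1 := ih (S := update (update S j (x :: S j)) i l) (by simp)
    have e : update (update (update (update S j (x :: S j)) i l) j
        (l.reverse ++ (update (update S j (x :: S j)) i l) j)) i [] =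
        update (update S j ((x :: l).reverse ++ S j)) i [] := by
      funext k
      by_cases hk : k = i
      · subst hk; simp
      · rw [update_of_ne hk, update_of_ne hk]
        by_cases hk' : k = j
        · subst hk'; simp [update_of_ne hk]
        · rw [update_of_ne hk', update_of_ne hk', update_of_ne hk, update_of_ne hk']
    rw [e] at h1
    refine Iter.cast (ItNE.step (by rw [h]; simp) (does_popPush hij h) h1) ?_
    simp only [List.length_cons]
    omega

theorem does_mvAll {i j : K} (hij : i ≠ j) (S : Store G) :
    Does (mvAll i j) S (4 * (S i).length + 2)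
      (update (update S j ((S i).reverse ++ S j)) i []) :=
  (itNE_mvAll hij (S i) rfl).does (by simp)

/-- Clear the stack `i`. -/
def clr (i : K) : Prog G := wne i (pp i)

theorem does_clr (i : K) (S : Store G) : Does (clr i) S (3 * (S i).length + 2)
    (update S i []) := by
  have key : ∀ l : List (X G), ∀ S : Store G, S i = l →
      ItNE i (pp i) S (3 * l.length) (update S i []) := by
    intro l
    induction l with
    | nil =>
      intro S h
      have e : update S i [] = S := by rw [← h]; exact update_eq_self i S
      rw [e]
      exact .refl _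
    | cons x l ih =>
      intro S h
      have h1 := ih (update S i l) (by simp)
      rw [update_idem] at h1
      have h2 := (doesV_pp i S).does
      rw [h, List.tail_cons] at h2
      refine Iter.cast (ItNE.step (by rw [h]; simp) h2 h1) ?_
      simp only [List.length_cons]
      omega
  exact (key (S i) S rfl).does (by simp)

/-! ### An explicit description of the stacks -/

/-- The stacks, listed. -/
def st (i r u m a b c : List (X G)) : Store G
  | .inp => i
  | .rev => r
  | .out => u
  | .m => m
  | .a => a
  | .b => b
  | .c => c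

section st

variable (i r u m a b c l : List (X G))

@[simp] theorem st_inp : st i r u m a b c .inp = i := rfl
@[simp] theorem st_rev : st i r u m a b c .rev = r := rfl
@[simp] theorem st_out : st i r u m a b c .out = u := rfl
@[simp] theorem st_m : st i r u m a b c .m = m := rfl
@[simp] theorem st_a : st i r u m a b c .a = a := rfl
@[simp] theorem st_b : st i r u m a b c .b = b := rfl
@[simp] theorem st_c : st i r u m a b c .c = c := rfl

@[simp] theorem up_inp : update (st i r u m a b c) .inp l = st l r u m a b c := by
  funext k; cases k <;> rfl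
@[simp] theorem up_rev : update (st i r u m a b c) .rev l = st i l u m a b c := by
  funext k; cases k <;> rfl
@[simp] theorem up_out : update (st i r u m a b c) .out l = st i r l m a b c := by
  funext k; cases k <;> rfl
@[simp] theorem up_m : update (st i r u m a b c) .m l = st i r u l a b c := by
  funext k; cases k <;> rfl
@[simp] theorem up_a : update (st i r u m a b c) .a l = st i r u m l b c := by
  funext k; cases k <;> rfl
@[simp] theorem up_b : update (st i r u m a b c) .b l = st i r u m a l c := by
  funext k; cases k <;> rfl
@[simp] theorem up_c : update (st i r u m a b c) .c l = st i r u m a b l := by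
  funext k; cases k <;> rfl

end st

variable {i r u : List (X G)}

/-- Move all letters of the stack `a` to the stacks `m` and `b`. -/
def cpAll : Prog G := wne .a (.seq (pp .a) (.seq (.push .m fun v => v.getD lz)
  (.push .b fun v => v.getD lz)))

theorem itNE_cpAll (l : List (X G)) : ∀ m b c : List (X G),
    ItNE .a (.seq (pp .a) (.seq (.push .m fun v => v.getD lz) (.push .b fun v => v.getD lz)))
      (st i r u m l b c) (5 * l.length) (st i r u (l.reverse ++ m) [] (l.reverse ++ b) c) := by
  induction l with
  | nil => intro m b c; exact .refl _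
  | cons x l ih =>
    intro m b c
    have h1 := ih (x :: m) (x :: b) c
    have h2 : Does (.seq (pp .a) (.seq (.push .m fun v => v.getD lz)
        (.push .b fun v => v.getD lz))) (st i r u m (x :: l) b c) 3
        (st i r u (x :: m) l (x :: b) c) := by
      intro v
      refine ⟨some x, 3, le_rfl, ?_⟩
      have h1 := Run.pop (Γ := fun _ : K => X G) .a (fun (_ : Option (X G)) o => o) v
        (st i r u m (x :: l) b c)
      have h2 := Run.push (Γ := fun _ : K => X G) .m (fun (v : Option (X G)) => v.getD lz)
        (some x) (st i r u m l b c)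
      have h3 := Run.push (Γ := fun _ : K => X G) .b (fun (v : Option (X G)) => v.getD lz)
        (some x) (st i r u (x :: m) l b c)
      simp only [st_a, st_m, st_b, up_a, up_m, up_b, List.head?_cons, List.tail_cons,
        Option.getD_some] at h1 h2 h3
      exact Run.seq h1 (Run.seq h2 h3)
    have h3 := ItNE.step (by simp) h2 h1
    simp only [List.reverse_cons, List.append_assoc, List.singleton_append, List.length_cons]
      at h3 ⊢
    exact Iter.cast h3 (by omega)

theorem does_cpAll (m l b c : List (X G)) :
    Does cpAll (st i r u m l b c) (5 * l.length + 2)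
      (st i r u (l.reverse ++ m) [] (l.reverse ++ b) c) :=
  (itNE_cpAll l m b c).does rfl

/-! ### Reading one value -/

/-- Is it the letter `lo`? -/
def isO : Option (X G) → Bool
  | some (Sum.inl true) => true
  | _ => false

/-- One round of reading a value. -/
def rdBody (j : K) : Prog G :=
  .seq (pp .m) (.ite isO (.seq (psh j lo) (psh .c lo)) (.seq (psh j lz) (pp .c)))

/-- Move the value on the top of the stack `m` to the stack `j`, in reverse. -/
def rd (j : K) : Prog G := .seq (psh .c lo) (wne .c (rdBody j))

theorem itNE_rd {j : K} (hm : j ≠ .m) (hc : j ≠ .c) (x : T) : ∀ (S : Store G)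
    (R cs : List (X G)), S .m = x.enc ++ R → S .c = lo :: cs →
    ItNE .c (rdBody j) S (6 * x.size)
      (update (update (update S .m R) j (x.enc.reverse ++ S j)) .c cs) := by
  induction x with
  | nil =>
    intro S R cs h1 h2
    have a1 := doesV_pp .m S
    rw [h1] at a1
    simp only [T.enc, List.singleton_append, List.tail_cons, List.head?_cons] at a1
    have a2 := (does_psh j lz (update S .m R)).seq (doesV_pp .c (update (update S .m R) j
      (lz :: (update S .m R) j))).does
    rw [update_of_ne hm, update_of_ne hc.symm, update_of_ne (by decide : K.c ≠ K.m), h2,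
      List.tail_cons] at a2
    have a3 := a1.seqU (DoesU.ite_false (p := isO) (c := .seq (psh j lo) (psh .c lo)) rfl
      (a2.u _))
    have a4 := ItNE.one (k := .c) (by rw [h2]; simp) a3
    exact Iter.cast a4 (by simp [T.size])
  | cons x y ihx ihy =>
    intro S R cs h1 h2
    have a1 := doesV_pp .m S
    rw [h1] at a1
    simp only [T.enc, List.cons_append, List.tail_cons, List.head?_cons, List.append_assoc] at a1
    have a2 := (does_psh j lo (update S .m (x.enc ++ (y.enc ++ R)))).seq (does_psh .c lo
      (update (update S .m (x.enc ++ (y.enc ++ R))) j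
      (lo :: (update S .m (x.enc ++ (y.enc ++ R))) j)))
    rw [update_of_ne hm, update_of_ne hc.symm, update_of_ne (by decide : K.c ≠ K.m), h2] at a2
    have a3 := a1.seqU (DoesU.ite_true (p := isO) (d := .seq (psh j lz) (pp .c)) rfl (a2.u _))
    have b1 := ihx (update (update (update S .m (x.enc ++ (y.enc ++ R))) j (lo :: S j)) .c
      (lo :: lo :: cs)) (y.enc ++ R) (lo :: cs)
      (by rw [update_of_ne (by decide), update_of_ne hm.symm, update_self]) (by simp)
    have b2 := ihy (update (update (update (update (update (update S .m (x.enc ++ (y.enc ++ R)))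
      j (lo :: S j)) .c (lo :: lo :: cs)) .m (y.enc ++ R)) j (x.enc.reverse ++
      (update (update (update S .m (x.enc ++ (y.enc ++ R))) j (lo :: S j)) .c
      (lo :: lo :: cs)) j)) .c (lo :: cs)) R cs
      (by rw [update_of_ne (by decide), update_of_ne hm.symm, update_self]) (by simp)
    have b3 := ItNE.step (k := .c) (by rw [h2]; simp) a3 (b1.trans b2)
    have e : update (update (update (update (update (update (update (update (update S .m
      (x.enc ++ (y.enc ++ R))) j (lo :: S j)) .c (lo :: lo :: cs)) .m (y.enc ++ R)) j
      (x.enc.reverse ++ (update (update (update S .m (x.enc ++ (y.enc ++ R))) j (lo :: S j)) .c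
      (lo :: lo :: cs)) j)) .c (lo :: cs)) .m R) j (y.enc.reverse ++
      (update (update (update (update (update (update S .m (x.enc ++ (y.enc ++ R)))
      j (lo :: S j)) .c (lo :: lo :: cs)) .m (y.enc ++ R)) j (x.enc.reverse ++
      (update (update (update S .m (x.enc ++ (y.enc ++ R))) j (lo :: S j)) .c
      (lo :: lo :: cs)) j)) .c (lo :: cs)) j)) .c cs =
      update (update (update S .m R) j ((T.cons x y).enc.reverse ++ S j)) .c cs := by
      funext k
      by_cases k1 : k = .c
      · subst k1; simp
      · rw [update_of_ne k1, update_of_ne k1]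
        by_cases k2 : k = j
        · subst k2; simp [update_of_ne k1, T.enc]
        · rw [update_of_ne k2, update_of_ne k2]
          by_cases k3 : k = .m
          · subst k3; simp
          · simp only [update_of_ne k1, update_of_ne k2, update_of_ne k3]
    rw [e] at b3
    exact Iter.cast b3 (by simp [T.size]; omega)

theorem does_rd {j : K} (hm : j ≠ .m) (hc : j ≠ .c) (x : T) {S : Store G} {R : List (X G)}
    (h1 : S .m = x.enc ++ R) (h2 : S .c = []) :
    Does (rd j) S (6 * x.size + 3) (update (update S .m R) j (x.enc.reverse ++ S j)) := by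
  have a1 := does_psh .c lo S
  rw [h2] at a1
  have a2 := itNE_rd hm hc x (update S .c [lo]) R [] (by rw [update_of_ne (by decide), h1])
    (by simp)
  have a3 := a1.seq (a2.does (by simp))
  have e : update (update (update (update S .c [lo]) .m R) j (x.enc.reverse ++
      (update S .c [lo]) j)) .c [] = update (update S .m R) j (x.enc.reverse ++ S j) := by
    funext k
    by_cases k1 : k = .c
    · subst k1
      rw [update_self, update_of_ne hc.symm, update_of_ne (by decide), h2]
    · rw [update_of_ne k1]
      by_cases k2 : k = j
      · subst k2; simp [update_of_ne k1]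
      · rw [update_of_ne k2, update_of_ne k2]
        by_cases k3 : k = .m
        · subst k3; simp
        · simp only [update_of_ne k1, update_of_ne k3]
  rw [e] at a3
  exact a3.mono (by omega)

/-! ### The basic operations -/

/-- The program `c` replaces the value `x` on the top of the main stack by `y`, in time `t`. -/
def Imp (c : Prog G) (x y : T) (t : ℕ) : Prop :=
  ∀ i r u R : List (X G),
    Does c (st i r u (x.enc ++ R) [] [] []) t (st i r u (y.enc ++ R) [] [] [])

theorem Imp.mono {c : Prog G} {x y : T} {t t' : ℕ} (h : Imp c x y t) (ht : t ≤ t') :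
    Imp c x y t' := fun i r u R => (h i r u R).mono ht

theorem Imp.seq {c d : Prog G} {x y w : T} {t t' : ℕ} (h : Imp c x y t) (h' : Imp d y w t') :
    Imp (.seq c d) x w (t + t') := fun i r u R => (h i r u R).seq (h' i r u R)

theorem does_id (S : Store G) : Does (.load id) S 1 S :=
  fun v => ⟨v, 1, le_rfl, .load id v S⟩

variable {R : List (X G)}

theorem does_rda (x : T) (a b : List (X G)) :
    Does (rd .a) (st i r u (x.enc ++ R) a b []) (6 * x.size + 3)
      (st i r u R (x.enc.reverse ++ a) b []) := by
  have h := does_rd (j := .a) (by decide) (by decide) x (S := st i r u (x.enc ++ R) a b [])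
    (R := R) rfl rfl
  simpa only [st_a, up_m, up_a] using h

theorem does_rdb (x : T) (a b : List (X G)) :
    Does (rd .b) (st i r u (x.enc ++ R) a b []) (6 * x.size + 3)
      (st i r u R a (x.enc.reverse ++ b) []) := by
  have h := does_rd (j := .b) (by decide) (by decide) x (S := st i r u (x.enc ++ R) a b [])
    (R := R) rfl rfl
  simpa only [st_b, up_m, up_b] using h

theorem does_clra (m a b c : List (X G)) :
    Does (clr .a) (st i r u m a b c) (3 * a.length + 2) (st i r u m [] b c) := by
  simpa only [st_a, up_a] using does_clr .a (st i r u m a b c)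

theorem does_clrb (m a b c : List (X G)) :
    Does (clr .b) (st i r u m a b c) (3 * b.length + 2) (st i r u m a [] c) := by
  simpa only [st_b, up_b] using does_clr .b (st i r u m a b c)

theorem does_mvam (m a b c : List (X G)) :
    Does (mvAll .a .m) (st i r u m a b c) (4 * a.length + 2)
      (st i r u (a.reverse ++ m) [] b c) := by
  simpa only [st_a, st_m, up_a, up_m] using
    does_mvAll (i := .a) (j := .m) (by decide) (st i r u m a b c)

theorem does_mvbm (m a b c : List (X G)) :
    Does (mvAll .b .m) (st i r u m a b c) (4 * b.length + 2)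
      (st i r u (b.reverse ++ m) a [] c) := by
  simpa only [st_b, st_m, up_b, up_m] using
    does_mvAll (i := .b) (j := .m) (by decide) (st i r u m a b c)

theorem does_mvba (m a b c : List (X G)) :
    Does (mvAll .b .a) (st i r u m a b c) (4 * b.length + 2)
      (st i r u m (b.reverse ++ a) [] c) := by
  simpa only [st_b, st_a, up_b, up_a] using
    does_mvAll (i := .b) (j := .a) (by decide) (st i r u m a b c)

/-- Drop the value on the top. -/
def dropT : Prog G := .seq (rd .a) (clr .a)

theorem does_dropT (x : T) : Does dropT (st i r u (x.enc ++ R) [] [] []) (9 * x.size + 5)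
    (st i r u R [] [] []) := by
  have h1 := does_rda (i := i) (r := r) (u := u) (R := R) x [] []
  have h2 := does_clra (i := i) (r := r) (u := u) R (x.enc.reverse ++ []) [] []
  refine (h1.seq h2).mono ?_
  simp only [List.append_nil, List.length_reverse, T.length_enc]
  omega

/-- Push a word. -/
def pushW (l : List (X G)) : Prog G := l.foldr (fun x p => .seq p (psh .m x)) (.load id)

theorem does_pushW (l : List (X G)) : Does (pushW l) (st i r u R [] [] []) (l.length + 1)
    (st i r u (l ++ R) [] [] []) := by
  induction l with
  | nil => exact does_id _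
  | cons x l ih =>
    have h := ih.seq (does_psh .m x (st i r u (l ++ R) [] [] []))
    simp only [st_m, up_m] at h
    exact h

/-- Replace the value on the top by the value `y`. -/
def setT (y : T) : Prog G := .seq dropT (pushW y.enc)

theorem imp_setT (x y : T) : Imp (G := G) (setT y) x y (9 * x.size + (y.size + 6)) := by
  intro i r u R
  refine ((does_dropT x).seq (does_pushW y.enc)).mono ?_
  rw [T.length_enc]
  omega

/-- Duplicate the value on the top. -/
def dupT : Prog G := .seq (rd .a) (.seq cpAll (.seq (mvAll .b .a) (mvAll .a .m)))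

theorem does_dupT (x : T) : Does dupT (st i r u (x.enc ++ R) [] [] []) (19 * x.size + 9)
    (st i r u (x.enc ++ (x.enc ++ R)) [] [] []) := by
  have h1 := does_rda (i := i) (r := r) (u := u) (R := R) x [] []
  have h2 := does_cpAll (i := i) (r := r) (u := u) R (x.enc.reverse ++ []) [] []
  simp only [List.append_nil, List.reverse_reverse] at h1 h2
  have h3 := does_mvba (i := i) (r := r) (u := u) (x.enc ++ R) [] x.enc []
  have h4 := does_mvam (i := i) (r := r) (u := u) (x.enc ++ R) x.enc.reverse [] []
  simp only [List.append_nil, List.reverse_reverse] at h3 h4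
  refine (h1.seq (h2.seq (h3.seq h4))).mono ?_
  simp only [List.length_reverse, T.length_enc]
  omega

/-- Swap the two values on the top. -/
def swapT : Prog G := .seq (rd .a) (.seq (rd .b) (.seq (mvAll .a .m) (mvAll .b .m)))

theorem does_swapT (x y : T) : Does swapT (st i r u (x.enc ++ (y.enc ++ R)) [] [] [])
    (10 * x.size + 10 * y.size + 10) (st i r u (y.enc ++ (x.enc ++ R)) [] [] []) := by
  have h1 := does_rda (i := i) (r := r) (u := u) (R := y.enc ++ R) x [] []
  have h2 := does_rdb (i := i) (r := r) (u := u) (R := R) y x.enc.reverse []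
  have h3 := does_mvam (i := i) (r := r) (u := u) R x.enc.reverse y.enc.reverse []
  have h4 := does_mvbm (i := i) (r := r) (u := u) (x.enc ++ R) [] y.enc.reverse []
  simp only [List.append_nil, List.reverse_reverse] at h1 h2 h3 h4
  refine (h1.seq (h2.seq (h3.seq h4))).mono ?_
  simp only [List.length_reverse, T.length_enc]
  omega

/-- The first component. -/
def T.hd : T → T
  | .nil => .nil
  | .cons a _ => a

/-- The second component. -/
def T.tl : T → T
  | .nil => .nil
  | .cons _ b => b

/-- Replace the value on the top by its second component. -/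
def tlT : Prog G := .seq (pp .m) (.ite isO dropT (psh .m lz))

theorem imp_tlT (x : T) : Imp (G := G) tlT x x.tl (9 * x.size + 7) := by
  intro i r u R
  have h0 := doesV_pp (G := G) .m (st i r u (x.enc ++ R) [] [] [])
  cases x with
  | nil =>
    simp only [T.enc, st_m, up_m, List.singleton_append, List.tail_cons, List.head?_cons] at h0
    have h1 := does_psh .m lz (st i r u R [] [] [])
    simp only [st_m, up_m] at h1
    refine (h0.seqU (DoesU.ite_false (p := isO) (c := dropT) rfl (h1.u _))).mono ?_
    simp [T.size]
  | cons x y =>
    simp only [T.enc, st_m, up_m, List.cons_append, List.append_assoc, List.tail_cons,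
      List.head?_cons] at h0
    have h1 := does_dropT (i := i) (r := r) (u := u) (R := y.enc ++ R) x
    rw [T.enc_cons]
    refine (h0.seqU (DoesU.ite_true (p := isO) (d := psh .m lz) rfl (h1.u _))).mono ?_
    simp only [T.size]
    omega

/-- Replace the value on the top by its first component. -/
def hdT : Prog G := .seq (pp .m) (.ite isO (.seq swapT dropT) (psh .m lz))

theorem imp_hdT (x : T) : Imp (G := G) hdT x x.hd (19 * x.size + 17) := by
  intro i r u R
  have h0 := doesV_pp (G := G) .m (st i r u (x.enc ++ R) [] [] [])
  cases x with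
  | nil =>
    simp only [T.enc, st_m, up_m, List.singleton_append, List.tail_cons, List.head?_cons] at h0
    have h1 := does_psh .m lz (st i r u R [] [] [])
    simp only [st_m, up_m] at h1
    refine (h0.seqU (DoesU.ite_false (p := isO) (c := .seq swapT dropT) rfl (h1.u _))).mono ?_
    simp [T.size]
  | cons x y =>
    simp only [T.enc, st_m, up_m, List.cons_append, List.append_assoc, List.tail_cons,
      List.head?_cons] at h0
    have h1 := (does_swapT (i := i) (r := r) (u := u) (R := R) x y).seq
      (does_dropT (i := i) (r := r) (u := u) (R := x.enc ++ R) y)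
    rw [T.enc_cons]
    refine (h0.seqU (DoesU.ite_true (p := isO) (d := psh .m lz) rfl (h1.u _))).mono ?_
    simp only [T.size]
    omega

/-- The tree of a Boolean. -/
def trB : Bool → T
  | false => .nil
  | true => .cons .nil .nil

/-- Remove a Boolean from the top of the stack and put it into the internal state. -/
def tstT : Prog G := .seq (pp .m) (.ite isO (.seq (pp .m) (.seq (pp .m) (.load fun _ => some lo)))
  (.load fun _ => some lz))

theorem doesV_tstT (b : Bool) : DoesV tstT (st i r u ((trB b).enc ++ R) [] [] []) 5
    (st i r u R [] [] []) (some (Sum.inl b)) := by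
  intro v
  cases b with
  | false =>
    have h1 := Run.pop (Γ := fun _ : K => X G) .m (fun (_ : Option (X G)) o => o) v
      (st i r u ((trB false).enc ++ R) [] [] [])
    have h2 := Run.load (Γ := fun _ : K => X G) (fun (_ : Option (X G)) => some lz) (some lz)
      (st i r u R [] [] [])
    simp only [trB, T.enc, st_m, up_m, List.singleton_append, List.tail_cons,
      List.head?_cons] at h1
    exact ⟨3, by omega, .seq h1 (.ite_false rfl h2)⟩
  | true =>
    have h1 := Run.pop (Γ := fun _ : K => X G) .m (fun (_ : Option (X G)) o => o) v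
      (st i r u ((trB true).enc ++ R) [] [] [])
    have h2 := Run.pop (Γ := fun _ : K => X G) .m (fun (_ : Option (X G)) o => o) (some lo)
      (st i r u (lz :: lz :: R) [] [] [])
    have h3 := Run.pop (Γ := fun _ : K => X G) .m (fun (_ : Option (X G)) o => o) (some lz)
      (st i r u (lz :: R) [] [] [])
    have h4 := Run.load (Γ := fun _ : K => X G) (fun (_ : Option (X G)) => some lo) (some lz)
      (st i r u R [] [] [])
    simp only [trB, T.enc, st_m, up_m, List.cons_append, List.nil_append,
      List.tail_cons, List.head?_cons] at h1 h2 h3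
    exact ⟨5, by omega, .seq h1 (.ite_true rfl (.seq h2 (.seq h3 h4)))⟩

/-- A program does not make a stack much longer. -/
theorem run_length {c : Prog G} {v v' : Option (X G)} {S S' : Store G} {n : ℕ}
    (h : Run c v S n v' S') (k : K) : (S' k).length ≤ (S k).length + n := by
  induction h with
  | push k' f v S =>
    by_cases hk : k = k'
    · subst hk; simp
    · rw [update_of_ne hk]; omega
  | peek => omega
  | pop k' f v S =>
    by_cases hk : k = k'
    · subst hk; simp; omega
    · rw [update_of_ne hk]; omega
  | load => omega
  | seq _ _ ih1 ih2 => omega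
  | ite_true _ _ ih => omega
  | ite_false _ _ ih => omega
  | loop_false => omega
  | loop_true _ _ _ ih1 ih2 => omega

theorem Imp.size_le {c : Prog G} {x y : T} {t : ℕ} (h : Imp c x y t) :
    y.size ≤ x.size + t := by
  obtain ⟨v, n, hn, hr⟩ := h [] [] [] [] none
  have := run_length hr .m
  simp only [st_m, List.append_nil, T.length_enc] at this
  omega

end Pool.Agent.Lib.PT
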