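import Pool.Agent.Lib.PTime.Basic

/-!
# Polynomial time functions: types with tree encodings and the basic closure properties
-/

open Turing Function

namespace Pool.Agent.Lib.PT

open PolyTM (Cmd)
open PolyTM.Cmd (Run)

/-- A type whose elements are represented by trees. -/
class Enc (α : Type) where
  /-- the tree of an element -/
  tr : α → T

export Enc (tr)

/-- The size of the tree of an element. -/
def sz {α : Type} [Enc α] (a : α) : ℕ := (tr a).size

theorem sz_pos {α : Type} [Enc α] (a : α) : 0 < sz a := T.size_pos _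

instance : Enc T := ⟨id⟩
instance : Enc Bool := ⟨trB⟩
instance : Enc Unit := ⟨fun _ => .nil⟩
instance {α β : Type} [Enc α] [Enc β] : Enc (α × β) := ⟨fun p => .cons (tr p.1) (tr p.2)⟩

instance {α : Type} [Enc α] {p : α → Prop} : Enc {a // p a} := ⟨fun a => tr a.1⟩

theorem tr_mk {α β : Type} [Enc α] [Enc β] (a : α) (b : β) :
    tr (a, b) = .cons (tr a) (tr b) := rfl

theorem sz_mk {α β : Type} [Enc α] [Enc β] (a : α) (b : β) : sz (a, b) = sz a + sz b + 1 := rfl

theorem eval_mono (p : Polynomial ℕ) : Monotone fun n : ℕ => p.eval n := by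
  intro a b h
  simp only
  rw [Polynomial.eval_eq_sum, Polynomial.eval_eq_sum]
  exact Finset.sum_le_sum fun i _ => Nat.mul_le_mul_left _ (Nat.pow_le_pow_left h i)

/-- Functions bounded by a polynomial in the size. -/
def PB {α : Type} [Enc α] (f : α → ℕ) : Prop := ∃ p : Polynomial ℕ, ∀ a, f a ≤ p.eval (sz a)

section PB

variable {α β : Type} [Enc α] [Enc β]

theorem PB.mono {f g : α → ℕ} (hg : PB g) (h : ∀ a, f a ≤ g a) : PB f := by
  obtain ⟨p, hp⟩ := hg
  exact ⟨p, fun a => (h a).trans (hp a)⟩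

theorem PB.const (n : ℕ) : PB fun _ : α => n := ⟨Polynomial.C n, fun a => by simp⟩

theorem PB.sz : PB fun a : α => sz a := ⟨Polynomial.X, fun a => by simp⟩

theorem PB.add {f g : α → ℕ} (hf : PB f) (hg : PB g) : PB fun a => f a + g a := by
  obtain ⟨p, hp⟩ := hf
  obtain ⟨q, hq⟩ := hg
  exact ⟨p + q, fun a => by rw [Polynomial.eval_add]; exact Nat.add_le_add (hp a) (hq a)⟩

theorem PB.mul {f g : α → ℕ} (hf : PB f) (hg : PB g) : PB fun a => f a * g a := by
  obtain ⟨p, hp⟩ := hf
  obtain ⟨q, hq⟩ := hg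
  exact ⟨p * q, fun a => by rw [Polynomial.eval_mul]; exact Nat.mul_le_mul (hp a) (hq a)⟩

theorem PB.pow {f : α → ℕ} (hf : PB f) (n : ℕ) : PB fun a => f a ^ n := by
  induction n with
  | zero => simpa using PB.const 1
  | succ n ih => simpa only [pow_succ] using ih.mul hf

theorem PB.eval {f : α → ℕ} (hf : PB f) (q : Polynomial ℕ) : PB fun a => q.eval (f a) := by
  obtain ⟨p, hp⟩ := hf
  refine ⟨q.comp p, fun a => ?_⟩
  rw [Polynomial.eval_comp]
  exact eval_mono q (hp a)

theorem PB.comp {f : β → ℕ} (hf : PB f) {g : α → β} (hg : PB fun a => PT.sz (g a)) :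
    PB fun a => f (g a) := by
  obtain ⟨p, hp⟩ := hf
  exact (hg.eval p).mono fun a => hp _

/-- A common polynomial bound for families. -/
theorem PB.of_comp_le {ι : Type} {f : β → ℕ} (hf : PB f) {g : α → ι → β} {b : α → ℕ}
    (hb : PB b) (h : ∀ a i, PT.sz (g a i) ≤ b a) :
    ∃ b' : α → ℕ, PB b' ∧ ∀ a i, f (g a i) ≤ b' a := by
  obtain ⟨p, hp⟩ := hf
  exact ⟨_, hb.eval p, fun a i => (hp _).trans (eval_mono p (h a i))⟩

end PB

/-- **The function `f` is computable in polynomial time** (on the trees, by programs). -/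
@[fun_prop] def PTime {α β : Type} [Enc α] [Enc β] (f : α → β) : Prop :=
  ∀ G : Type, ∃ (c : Prog G) (t : α → ℕ), PB t ∧ ∀ a, Imp c (tr a) (tr (f a)) (t a)

variable {α β γ δ σ : Type} [Enc α] [Enc β] [Enc γ] [Enc δ] [Enc σ]

theorem PTime.sz_le {f : α → β} (hf : PTime f) : PB fun a => sz (f a) := by
  obtain ⟨c, t, ht, hc⟩ := hf Unit
  exact (PB.sz.add ht).mono fun a => (hc a).size_le

/-- Functions with the same trees. -/
theorem PTime.cast {α' β' : Type} [Enc α'] [Enc β'] {f : α → β} (hf : PTime f) {f' : α' → β'}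
    (u : α' → α) (h1 : ∀ a, tr (u a) = tr a) (h2 : ∀ a, tr (f' a) = tr (f (u a))) :
    PTime f' := by
  intro G
  obtain ⟨c, t, ⟨p, hp⟩, hc⟩ := hf G
  refine ⟨c, fun a => t (u a), ⟨p, fun a => ?_⟩, fun a => ?_⟩
  · have h := hp (u a)
    unfold sz at h ⊢
    rwa [h1] at h
  · have h := hc (u a)
    rwa [h1, ← h2] at h

theorem PTime.of_eq {f g : α → β} (hf : PTime f) (h : ∀ a, f a = g a) : PTime g := by
  rwa [← funext h]

/-- The function that does not change the tree. -/
theorem PTime.same (f : α → β) (h : ∀ a, tr (f a) = tr a) : PTime f := by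
  intro G
  refine ⟨.load id, fun _ => 1, PB.const 1, fun a i r u R => ?_⟩
  rw [h]
  exact does_id _

@[fun_prop] theorem PTime.id : PTime fun a : α => a := PTime.same _ fun _ => rfl

@[fun_prop] theorem PTime.comp {f : β → γ} {g : α → β} (hf : PTime f) (hg : PTime g) :
    PTime fun a => f (g a) := by
  have hb := hg.sz_le
  intro G
  obtain ⟨c, t, ht, hc⟩ := hf G
  obtain ⟨d, s, hs, hd⟩ := hg G
  exact ⟨.seq d c, fun a => s a + t (g a), hs.add (ht.comp hb), fun a => (hd a).seq (hc _)⟩

@[fun_prop] theorem PTime.pair {f : α → β} {g : α → γ} (hf : PTime f) (hg : PTime g) :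
    PTime fun a => (f a, g a) := by
  have hb := hg.sz_le
  intro G
  obtain ⟨c, t, ht, hc⟩ := hf G
  obtain ⟨d, s, hs, hd⟩ := hg G
  refine ⟨.seq dupT (.seq d (.seq swapT (.seq c (psh .m lo)))), fun a =>
    (19 * sz a + 9) + (s a + ((10 * sz (g a) + 10 * sz a + 10) + (t a + 1))), ?_, fun a => ?_⟩
  · exact (((PB.const 19).mul PB.sz).add (PB.const 9)).add (hs.add
      (((((PB.const 10).mul hb).add ((PB.const 10).mul PB.sz)).add (PB.const 10)).add
      (ht.add (PB.const 1))))
  · intro i r u R
    have h1 := does_dupT (i := i) (r := r) (u := u) (R := R) (tr a)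
    have h2 := hd a i r u ((tr a).enc ++ R)
    have h3 := does_swapT (i := i) (r := r) (u := u) (R := R) (tr (g a)) (tr a)
    have h4 := hc a i r u ((tr (g a)).enc ++ R)
    have h5 := does_psh .m lo (st i r u ((tr (f a)).enc ++ ((tr (g a)).enc ++ R)) [] [] [])
    rw [st_m, up_m] at h5
    rw [tr_mk, T.enc_cons]
    exact h1.seq (h2.seq (h3.seq (h4.seq h5)))

theorem PTime.fst : PTime fun p : α × β => p.1 := by
  intro G
  exact ⟨hdT, fun p => 19 * sz p + 17, ((PB.const 19).mul PB.sz).add (PB.const 17),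
    fun p => imp_hdT (tr p)⟩

theorem PTime.snd : PTime fun p : α × β => p.2 := by
  intro G
  exact ⟨tlT, fun p => 9 * sz p + 7, ((PB.const 9).mul PB.sz).add (PB.const 7),
    fun p => imp_tlT (tr p)⟩

@[fun_prop] theorem PTime.fst' {f : α → β × γ} (hf : PTime f) : PTime fun a => (f a).1 := PTime.fst.comp hf

@[fun_prop] theorem PTime.snd' {f : α → β × γ} (hf : PTime f) : PTime fun a => (f a).2 := PTime.snd.comp hf

@[fun_prop] theorem PTime.const (b : β) : PTime fun _ : α => b := by
  intro G
  exact ⟨setT (tr b), fun a => 9 * sz a + (sz b + 6), ((PB.const 9).mul PB.sz).add (PB.const _),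
    fun a => imp_setT (tr a) (tr b)⟩

theorem PTime.hd : PTime T.hd := by
  intro G
  exact ⟨hdT, fun p => 19 * sz p + 17, ((PB.const 19).mul PB.sz).add (PB.const 17),
    fun p => imp_hdT (tr p)⟩

theorem PTime.tl : PTime T.tl := by
  intro G
  exact ⟨tlT, fun p => 9 * sz p + 7, ((PB.const 9).mul PB.sz).add (PB.const 7),
    fun p => imp_tlT (tr p)⟩

/-- Is the tree `nil`? -/
def T.isCons : T → Bool
  | .nil => false
  | .cons _ _ => true

/-- A test of the value on the top. -/
def test {G : Type} (c : Prog G) : Prog G := .seq dupT (.seq c tstT)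

theorem doesV_test {G : Type} {c : Prog G} {x : T} {b : Bool} {t : ℕ} (h : Imp c x (trB b) t)
    {i r u R : List (X G)} :
    DoesV (test c) (st i r u (x.enc ++ R) [] [] []) (19 * x.size + 9 + (t + 5))
      (st i r u (x.enc ++ R) [] [] []) (some (Sum.inl b)) :=
  (does_dupT x).seqV ((h i r u (x.enc ++ R)).seqV (doesV_tstT b))

theorem PTime.cond {b : α → Bool} {f g : α → β} (hb : PTime b) (hf : PTime f) (hg : PTime g) :
    PTime fun a => bif b a then f a else g a := by
  intro G
  obtain ⟨q, s, hs, hq⟩ := hb G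
  obtain ⟨c, t, ht, hc⟩ := hf G
  obtain ⟨d, t', ht', hd⟩ := hg G
  refine ⟨.seq (test q) (.ite isO c d), fun a => (19 * sz a + 9 + (s a + 5)) + (t a + t' a + 1),
    ?_, fun a => ?_⟩
  · exact ((((PB.const 19).mul PB.sz).add (PB.const 9)).add (hs.add (PB.const 5))).add
      ((ht.add ht').add (PB.const 1))
  · intro i r u R
    have h1 := doesV_test (i := i) (r := r) (u := u) (R := R) (hq a)
    simp only
    cases hba : b a with
    | true =>
      rw [hba] at h1
      have h2 := (hc a i r u R).mono (Nat.le_add_right _ (t' a))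
      exact h1.seqU (DoesU.ite_true (p := isO) (d := d) rfl (h2.u _))
    | false =>
      rw [hba] at h1
      have h2 := (hd a i r u R).mono (Nat.le_add_left _ (t a))
      exact h1.seqU (DoesU.ite_false (p := isO) (c := c) rfl (h2.u _))

/-- Case distinction, where the two parts need to be computable only on their domains. -/
theorem PTime.condS {b : α → Bool} {h : α → β} (hb : PTime b)
    (ht : PTime fun a : {a // b a = true} => h a)
    (hf : PTime fun a : {a // b a = false} => h a) : PTime h := by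
  intro G
  obtain ⟨q, s, hs, hq⟩ := hb G
  obtain ⟨c, t, ⟨p₁, hp₁⟩, hc⟩ := ht G
  obtain ⟨d, t', ⟨p₂, hp₂⟩, hd⟩ := hf G
  refine ⟨.seq (test q) (.ite isO c d), fun a =>
    (19 * sz a + 9 + (s a + 5)) + (p₁.eval (sz a) + p₂.eval (sz a) + 1), ?_, fun a => ?_⟩
  · exact ((((PB.const 19).mul PB.sz).add (PB.const 9)).add (hs.add (PB.const 5))).add
      (((PB.sz.eval p₁).add (PB.sz.eval p₂)).add (PB.const 1))
  · intro i r u R
    have h1 := doesV_test (i := i) (r := r) (u := u) (R := R) (hq a)
    cases hba : b a with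
    | true =>
      rw [hba] at h1
      have h2 := (hc ⟨a, hba⟩ i r u R).mono ((hp₁ ⟨a, hba⟩).trans
        (Nat.le_add_right (p₁.eval (sz a)) (p₂.eval (sz a))))
      exact h1.seqU (DoesU.ite_true (p := isO) (d := d) rfl (h2.u _))
    | false =>
      rw [hba] at h1
      have h2 := (hd ⟨a, hba⟩ i r u R).mono ((hp₂ ⟨a, hba⟩).trans
        (Nat.le_add_left (p₂.eval (sz a)) (p₁.eval (sz a))))
      exact h1.seqU (DoesU.ite_false (p := isO) (c := c) rfl (h2.u _))

theorem PTime.ite {p : α → Prop} [DecidablePred p] {f g : α → β}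
    (hp : PTime fun a => decide (p a)) (hf : PTime f) (hg : PTime g) :
    PTime fun a => if p a then f a else g a := by
  refine (PTime.cond hp hf hg).of_eq fun a => ?_
  by_cases h : p a <;> simp [h]

/-- **While loops.** The function `f` is iterated, `N a` times, until the test `b` fails; the
number of rounds and the sizes of the intermediate values are bounded by a polynomial. -/
theorem PTime.iter {f : σ → σ} {b : σ → Bool} {s : α → σ} (N : α → ℕ) (hf : PTime f)
    (hb : PTime b) (hs : PTime s) {B : α → ℕ} (hB : PB B) (hN : ∀ a, N a ≤ B a)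
    (hsz : ∀ a, ∀ i ≤ N a, sz (f^[i] (s a)) ≤ B a)
    (hb1 : ∀ a, ∀ i < N a, b (f^[i] (s a)) = true) (hb2 : ∀ a, b (f^[N a] (s a)) = false) :
    PTime fun a => f^[N a] (s a) := by
  intro G
  obtain ⟨cf, tf, ⟨pf, hpf⟩, hcf⟩ := hf G
  obtain ⟨cb, tb, ⟨pb, hpb⟩, hcb⟩ := hb G
  obtain ⟨cs, ts, hts, hcs⟩ := hs G
  -- the cost of a test and the cost of a round
  let Q : α → ℕ := fun a => 19 * B a + 9 + (pb.eval (B a) + 5)
  let F : α → ℕ := fun a => pf.eval (B a)
  have hQ : PB Q := (((PB.const 19).mul hB).add (PB.const 9)).add ((hB.eval pb).add (PB.const 5))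
  have hF : PB F := hB.eval pf
  refine ⟨.seq cs (whl (test cb) isO cf), fun a => ts a + (B a * (Q a + F a + 1) + Q a + 1),
    hts.add (((hB.mul ((hQ.add hF).add (PB.const 1))).add hQ).add (PB.const 1)), fun a => ?_⟩
  intro i r u R
  refine (hcs a i r u R).seq ?_
  have hq : ∀ k ≤ N a, DoesV (test cb) (st i r u ((tr (f^[k] (s a))).enc ++ R) [] [] []) (Q a)
      (st i r u ((tr (f^[k] (s a))).enc ++ R) [] [] []) (some (Sum.inl (b (f^[k] (s a))))) := by
    intro k hk
    refine (doesV_test (hcb _)).mono ?_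
    have h1 := hsz a k hk
    have h2 := (hpb (f^[k] (s a))).trans (eval_mono pb h1)
    simp only at h2
    have h3 : (tr (f^[k] (s a))).size ≤ B a := h1
    simp only [Q]
    omega
  have key : ∀ j k, j + k = N a → Iter (test cb) isO cf
      (st i r u ((tr (f^[k] (s a))).enc ++ R) [] [] []) (j * (Q a + F a + 1))
      (st i r u ((tr (f^[N a] (s a))).enc ++ R) [] [] []) := by
    intro j
    induction j with
    | zero =>
      intro k hk
      rw [Nat.zero_add] at hk
      rw [hk, Nat.zero_mul]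
      exact .refl _
    | succ j ih =>
      intro k hk
      have h1 := ih (k + 1) (by omega)
      have h2 := hq k (by omega)
      rw [hb1 a k (by omega)] at h2
      have h3 := hcf (f^[k] (s a)) i r u R
      rw [← iterate_succ_apply' f k (s a)] at h3
      have h4 : tf (f^[k] (s a)) ≤ F a :=
        (hpf _).trans (eval_mono pf (hsz a k (by omega)))
      exact Iter.cast (Iter.step (p := isO) h2 rfl (h3.mono h4) h1) (by ring)
  have h1 := key (N a) 0 (by omega)
  have h2 := hq (N a) le_rfl
  rw [hb2 a] at h2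
  refine (Iter.does h1 h2 rfl).mono ?_
  have := Nat.mul_le_mul_right (Q a + F a + 1) (hN a)
  omega

end Pool.Agent.Lib.PT
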