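import Pool.Agent.Lib.PTime.Core

/-!
# Polynomial time functions: numbers, lists, options
-/

open Turing Function

namespace Pool.Agent.Lib.PT

open PolyTM (Cmd)
open PolyTM.Cmd (Run)

variable {α β γ δ σ : Type} [Enc α] [Enc β] [Enc γ] [Enc δ] [Enc σ]

/-! ### Booleans -/

@[fun_prop] theorem PTime.val {p : α → Prop} : PTime fun a : {a // p a} => a.1 :=
  PTime.same _ fun _ => rfl

@[fun_prop] theorem PTime.not {f : α → Bool} (hf : PTime f) : PTime fun a => !(f a) :=
  (PTime.cond hf (PTime.const false) (PTime.const true)).of_eq fun a => by cases f a <;> rfl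

@[fun_prop] theorem PTime.and {f g : α → Bool} (hf : PTime f) (hg : PTime g) :
    PTime fun a => f a && g a :=
  (PTime.cond hf hg (PTime.const false)).of_eq fun a => by cases f a <;> rfl

@[fun_prop] theorem PTime.or {f g : α → Bool} (hf : PTime f) (hg : PTime g) :
    PTime fun a => f a || g a :=
  (PTime.cond hf (PTime.const true) hg).of_eq fun a => by cases f a <;> rfl

@[fun_prop] theorem PTime.isCons : PTime T.isCons := by
  intro G
  refine ⟨.seq (pp .m) (.ite isO (.seq dropT (.seq dropT (pushW (trB true).enc))) (psh .m lz)),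
    fun a => 9 * sz a + 20, ((PB.const 9).mul PB.sz).add (PB.const 20), fun x i r u R => ?_⟩
  have h0 := doesV_pp (G := G) .m (st i r u (x.enc ++ R) [] [] [])
  cases x with
  | nil =>
    simp only [T.enc, st_m, up_m, List.singleton_append, List.tail_cons, List.head?_cons] at h0
    have h1 := does_psh .m lz (st i r u R [] [] [])
    simp only [st_m, up_m] at h1
    refine (h0.seqU (DoesU.ite_false (p := isO) (c := .seq dropT (.seq dropT
      (pushW (trB true).enc))) rfl (h1.u _))).mono ?_
    show _ ≤ 9 * T.size _ + 20
    omega
  | cons x y =>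
    simp only [T.enc, st_m, up_m, List.cons_append, List.append_assoc, List.tail_cons,
      List.head?_cons] at h0
    have h1 := does_dropT (i := i) (r := r) (u := u) (R := y.enc ++ R) x
    have h2 := does_dropT (i := i) (r := r) (u := u) (R := R) y
    have h3 := does_pushW (i := i) (r := r) (u := u) (R := R) (trB true).enc
    show Does _ (st i r u ((T.cons x y).enc ++ R) [] [] []) _ _
    rw [T.enc_cons]
    refine (h0.seqU (DoesU.ite_true (p := isO) (d := psh .m lz) rfl
      ((h1.seq (h2.seq h3)).u _))).mono ?_
    rw [T.length_enc]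
    show _ ≤ 9 * (T.cons x y).size + 20
    simp only [T.size, trB]
    omega

/-! ### Lists -/

/-- The tree of a list. -/
def trL : List α → T
  | [] => .nil
  | x :: l => .cons (tr x) (trL l)

instance : Enc (List α) := ⟨trL⟩

@[simp] theorem tr_nil : tr ([] : List α) = .nil := rfl
theorem tr_cons (x : α) (l : List α) : tr (x :: l) = .cons (tr x) (tr l) := rfl

@[simp] theorem sz_nil : sz ([] : List α) = 1 := rfl
@[simp] theorem sz_cons (x : α) (l : List α) : sz (x :: l) = sz x + sz l + 1 := rfl

@[fun_prop] theorem PTime.cons {f : α → β} {g : α → List β} (hf : PTime f) (hg : PTime g) :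
    PTime fun a => f a :: g a :=
  (PTime.same (fun p : β × List β => p.1 :: p.2) fun _ => rfl).comp (hf.pair hg)

@[fun_prop] theorem PTime.tail {f : α → List β} (hf : PTime f) : PTime fun a => (f a).tail := by
  refine (PTime.cast (f := T.tl) (f' := fun l : List β => l.tail) PTime.tl tr
    (fun _ => rfl) fun l => ?_).comp hf
  cases l <;> rfl

@[fun_prop] theorem PTime.isEmpty {f : α → List β} (hf : PTime f) :
    PTime fun a => (f a).isEmpty := by
  refine ((PTime.cast (f := T.isCons) (f' := fun l : List β => !l.isEmpty) PTime.isCons tr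
    (fun _ => rfl) fun l => ?_).comp hf).not.of_eq fun a => by simp
  cases l <;> rfl

/-- Case distinction for lists. -/
theorem PTime.listCases {l : α → List β} {h : α → γ} {f : α → γ} {g : α × β × List β → γ}
    (hl : PTime l) (hf : PTime f) (hg : PTime g) (h0 : ∀ a, l a = [] → h a = f a)
    (h1 : ∀ a x t, l a = x :: t → h a = g (a, x, t)) : PTime h := by
  refine PTime.condS (b := fun a => (l a).isEmpty) hl.isEmpty ?_ ?_
  · refine (hf.comp PTime.val).of_eq fun a => (h0 a.1 ?_).symm
    simpa using a.2
  · have key : ∀ a : {a // (l a).isEmpty = false}, ∃ x t, l a.1 = x :: t := by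
      rintro ⟨a, ha⟩
      cases h : l a with
      | nil => simp [h] at ha
      | cons x t => exact ⟨x, t, rfl⟩
    choose u v huv using key
    have e : PTime fun a => (u a, v a) := by
      refine PTime.cast (f := fun a : {a // (l a).isEmpty = false} => l a.1)
        (hl.comp PTime.val) (fun a => a) (fun _ => rfl) fun a => ?_
      rw [huv a]
      rfl
    refine (hg.comp (PTime.val.pair e)).of_eq fun a => ?_
    exact (h1 a.1 (u a) (v a) (huv a)).symm

@[fun_prop] theorem PTime.headD {l : α → List β} {d : α → β} (hl : PTime l) (hd : PTime d) :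
    PTime fun a => (l a).headD (d a) :=
  PTime.listCases (g := fun p => p.2.1) hl hd (by fun_prop) (fun a h => by simp [h])
    (fun a x t h => by simp [h])

theorem sz_mem_le {x : α} {l : List α} (h : x ∈ l) : sz x ≤ sz l := by
  induction l with
  | nil => simp at h
  | cons y l ih =>
    rcases List.mem_cons.1 h with rfl | h
    · rw [sz_cons]; omega
    · have := ih h
      rw [sz_cons]; omega

theorem sz_append (l l' : List α) : sz (l ++ l') + 1 = sz l + sz l' := by
  induction l with
  | nil => rw [List.nil_append, sz_nil]; omega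
  | cons x l ih => rw [List.cons_append, sz_cons, sz_cons]; omega

theorem sz_reverse (l : List α) : sz l.reverse = sz l := by
  induction l with
  | nil => rfl
  | cons x l ih =>
    have := sz_append l.reverse [x]
    rw [List.reverse_cons, sz_cons]
    rw [sz_cons, sz_nil] at this
    omega

theorem length_le_sz (l : List α) : l.length ≤ sz l := by
  induction l with
  | nil => simp
  | cons x l ih =>
    rw [List.length_cons, sz_cons]
    omega

theorem sz_le_of_forall {l : List α} {B : ℕ} (h : ∀ x ∈ l, sz x ≤ B) :
    sz l ≤ l.length * (B + 1) + 1 := by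
  induction l with
  | nil => simp
  | cons x l ih =>
    have h1 := ih fun y hy => h y (List.mem_cons_of_mem _ hy)
    have h2 := h x List.mem_cons_self
    rw [List.length_cons, sz_cons, Nat.succ_mul]
    omega

/-- **Folds.** -/
theorem PTime.foldl {l : α → List β} {s : α → σ} {f : α → σ → β → σ} (hl : PTime l)
    (hs : PTime s) (hf : PTime fun p : α × σ × β => f p.1 p.2.1 p.2.2) {B : α → ℕ} (hB : PB B)
    (hsz : ∀ a l₁ l₂, l a = l₁ ++ l₂ → sz (l₁.foldl (f a) (s a)) ≤ B a) :
    PTime fun a => (l a).foldl (f a) (s a) := by
  let F : α × List β × σ → α × List β × σ := fun q =>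
    match q.2.1 with
    | [] => q
    | x :: t => (q.1, t, f q.1 q.2.2 x)
  have hF : PTime F := by
    refine PTime.listCases (l := fun q : α × List β × σ => q.2.1) (f := fun q => q)
      (g := fun p => (p.1.1, p.2.2, f p.1.1 p.1.2.2 p.2.1)) (by fun_prop) (by fun_prop) ?_
      (fun q h => ?_) (fun q x t h => ?_)
    · have h1 : PTime fun p : (α × List β × σ) × β × List β => f p.1.1 p.1.2.2 p.2.1 :=
        hf.comp (g := fun p : (α × List β × σ) × β × List β => (p.1.1, p.1.2.2, p.2.1))
          (by fun_prop)
      fun_prop
    · simp only [F, h]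
    · simp only [F, h]
  have key : ∀ a, ∀ l₂ l₁ : List β, l a = l₁ ++ l₂ →
      F^[l₁.length] (a, l a, s a) = (a, l₂, l₁.foldl (f a) (s a)) := by
    intro a l₂ l₁
    induction l₁ using List.reverseRecOn generalizing l₂ with
    | nil => intro h; simp [h]
    | append_singleton l₁ x ih =>
      intro h
      rw [List.length_append, List.length_singleton, iterate_succ_apply',
        ih (x :: l₂) (by simp [h])]
      simp [F, List.foldl_append]
  have h := PTime.iter (f := F) (b := fun q => !q.2.1.isEmpty) (s := fun a => (a, l a, s a))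
    (fun a => (l a).length) hF (by fun_prop) (by fun_prop)
    (B := fun a => sz a + (sz (l a) + B a + 1) + 1) ?_ ?_ ?_ ?_ ?_
  · refine (h.snd'.snd').of_eq fun a => ?_
    rw [key a [] (l a) (by simp)]
  · exact (PB.sz.add ((hl.sz_le.add hB).add (PB.const 1))).add (PB.const 1)
  · intro a
    have := length_le_sz (l a)
    omega
  · intro a i hi
    have h1 := key a ((l a).drop i) ((l a).take i) (by simp)
    rw [List.length_take, min_eq_left hi] at h1
    rw [h1, sz_mk, sz_mk]
    have h2 := hsz a ((l a).take i) ((l a).drop i) (by simp)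
    have h3 := sz_append ((l a).take i) ((l a).drop i)
    have h4 := sz_pos ((l a).take i)
    rw [List.take_append_drop] at h3
    omega
  · intro a i hi
    have h1 := key a ((l a).drop i) ((l a).take i) (by simp)
    rw [List.length_take, min_eq_left hi.le] at h1
    rw [h1]
    simp
    omega
  · intro a
    rw [key a [] (l a) (by simp)]
    rfl

@[fun_prop] theorem PTime.reverse {l : α → List β} (hl : PTime l) :
    PTime fun a => (l a).reverse := by
  have h : ∀ (l t : List β), l.foldl (fun acc x => x :: acc) t = l.reverse ++ t := by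
    intro l
    induction l with
    | nil => intro t; rfl
    | cons x l ih => intro t; simp [ih]
  refine (PTime.foldl (l := l) (s := fun _ => []) (f := fun _ acc x => x :: acc) hl
    (PTime.const _) (by fun_prop) hl.sz_le ?_).of_eq fun a => by rw [h]; simp
  intro a l₁ l₂ e
  rw [h, List.append_nil, sz_reverse, e]
  have := sz_append l₁ l₂
  have := sz_pos l₂
  omega

@[fun_prop] theorem PTime.append {l t : α → List β} (hl : PTime l) (ht : PTime t) :
    PTime fun a => l a ++ t a := by
  have h : ∀ (l t : List β), l.foldl (fun acc x => x :: acc) t = l.reverse ++ t := by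
    intro l
    induction l with
    | nil => intro t; rfl
    | cons x l ih => intro t; simp [ih]
  refine (PTime.foldl (l := fun a => (l a).reverse) (s := t) (f := fun _ acc x => x :: acc)
    hl.reverse ht (by fun_prop) (hl.sz_le.add ht.sz_le) ?_).of_eq fun a => by rw [h]; simp
  intro a l₁ l₂ e
  have h1 := sz_append l₁.reverse (t a)
  have h2 := sz_append l₁ l₂
  have h3 := sz_pos l₂
  rw [← e, sz_reverse] at h2
  rw [h]
  rw [sz_reverse] at h1
  omega

/-- The function `flatMap`. -/
theorem PTime.flatMap {l : α → List β} {f : α → β → List γ} (hl : PTime l)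
    (hf : PTime fun p : α × β => f p.1 p.2) : PTime fun a => (l a).flatMap (f a) := by
  obtain ⟨q, hq⟩ := hf.sz_le
  have hB : PB fun a => sz (l a) * (q.eval (sz a + sz (l a) + 1) + 1) + 1 :=
    ((hl.sz_le.mul ((((PB.sz.add hl.sz_le).add (PB.const 1)).eval q).add (PB.const 1))).add
      (PB.const 1))
  have key : ∀ a, ∀ l₁ : List β, l₁.foldl (fun acc x => (f a x).reverse ++ acc) [] =
      (l₁.flatMap (f a)).reverse := by
    intro a l₁
    induction l₁ using List.reverseRecOn with
    | nil => rfl
    | append_singleton l₁ x ih => simp [ih]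
  have h1 : PTime fun p : α × List γ × β => (f p.1 p.2.2).reverse ++ p.2.1 := by
    have h1 : PTime fun p : α × List γ × β => f p.1 p.2.2 :=
      hf.comp (g := fun p : α × List γ × β => (p.1, p.2.2)) (by fun_prop)
    fun_prop
  refine ((PTime.foldl (l := l) (s := fun _ => []) (f := fun a acc x => (f a x).reverse ++ acc)
    hl (PTime.const _) h1 hB ?_).reverse).of_eq fun a => by rw [key, List.reverse_reverse]
  intro a l₁ l₂ e
  rw [key, sz_reverse]
  have h2 : ∀ l₁ : List β, (∀ x ∈ l₁, x ∈ l a) → sz (l₁.flatMap (f a)) ≤
      l₁.length * (q.eval (sz a + sz (l a) + 1) + 1) + 1 := by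
    intro l₁
    induction l₁ with
    | nil => intro _; simp
    | cons x l₁ ih =>
      intro hx
      have h3 := ih fun y hy => hx y (List.mem_cons_of_mem _ hy)
      have h4 := sz_mem_le (hx x List.mem_cons_self)
      have h5 := hq (a, x)
      rw [sz_mk] at h5
      have h6 : q.eval (sz a + sz x + 1) ≤ q.eval (sz a + sz (l a) + 1) :=
        eval_mono q (by omega)
      have h7 := sz_append (f a x) (l₁.flatMap (f a))
      rw [List.flatMap_cons, List.length_cons, Nat.succ_mul]
      simp only at h5
      omega
  refine (h2 l₁ fun x hx => by rw [e]; exact List.mem_append_left _ hx).trans ?_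
  have h8 : l₁.length ≤ sz (l a) := by
    have := length_le_sz (l a)
    rw [e, List.length_append] at this
    rw [e]
    omega
  have := Nat.mul_le_mul_right (q.eval (sz a + sz (l a) + 1) + 1) h8
  omega

theorem PTime.map {l : α → List β} {f : α → β → γ} (hl : PTime l)
    (hf : PTime fun p : α × β => f p.1 p.2) : PTime fun a => (l a).map (f a) := by
  refine (PTime.flatMap (f := fun a x => [f a x]) hl ?_).of_eq fun a => ?_
  · fun_prop
  · induction l a with
    | nil => rfl
    | cons x t ih => rw [List.flatMap_cons, ih]; rfl

theorem PTime.filter {l : α → List β} {f : α → β → Bool} (hl : PTime l)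
    (hf : PTime fun p : α × β => f p.1 p.2) : PTime fun a => (l a).filter (f a) := by
  refine (PTime.flatMap (f := fun a x => bif f a x then [x] else []) hl ?_).of_eq fun a => ?_
  · exact PTime.cond hf (by fun_prop) (by fun_prop)
  · induction l a with
    | nil => rfl
    | cons x t ih =>
      rw [List.flatMap_cons, ih, List.filter_cons]
      cases f a x <;> rfl

end Pool.Agent.Lib.PT
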