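import Pool.Agent.Lib.PTime.Data

/-!
# Polynomial time functions: numbers in unary notation, more on lists, options, sums
-/

open Turing Function

namespace Pool.Agent.Lib.PT

variable {α β γ δ σ : Type} [Enc α] [Enc β] [Enc γ] [Enc δ] [Enc σ]

/-! ### Numbers -/

/-- The tree of a number. -/
def trN : ℕ → T
  | 0 => .nil
  | n + 1 => .cons .nil (trN n)

instance : Enc ℕ := ⟨trN⟩

@[simp] theorem tr_zero : tr (0 : ℕ) = .nil := rfl
theorem tr_succ (n : ℕ) : tr (n + 1) = .cons .nil (tr n) := rfl

@[simp] theorem sz_nat (n : ℕ) : sz n = 2 * n + 1 := by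
  induction n with
  | zero => rfl
  | succ n ih =>
    show (T.cons .nil (tr n)).size = _
    have : (tr n).size = 2 * n + 1 := ih
    simp only [T.size, this]
    omega

@[simp] theorem sz_unit (x : Unit) : sz x = 1 := rfl

theorem sz_bool (b : Bool) : sz b ≤ 3 := by cases b <;> decide

theorem tr_replicate (n : ℕ) : tr (List.replicate n ()) = tr n := by
  induction n with
  | zero => rfl
  | succ n ih => rw [List.replicate_succ, tr_cons, ih]; rfl

theorem tr_units (l : List Unit) : tr l = tr l.length := by
  rw [← tr_replicate]
  congr 1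
  exact List.eq_replicate_of_mem fun _ _ => rfl

@[fun_prop] theorem PTime.replicateUnit {n : α → ℕ} (hn : PTime n) :
    PTime fun a => List.replicate (n a) () :=
  (PTime.same (fun n : ℕ => List.replicate n ()) tr_replicate).comp hn

@[fun_prop] theorem PTime.length {l : α → List β} (hl : PTime l) :
    PTime fun a => (l a).length := by
  have h1 : PTime fun a => (l a).map fun _ => () := PTime.map hl (PTime.const ())
  have h2 : PTime fun l : List Unit => l.length := PTime.same _ fun l => (tr_units l).symm
  exact (h2.comp h1).of_eq fun a => by simp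

@[fun_prop] theorem PTime.add {f g : α → ℕ} (hf : PTime f) (hg : PTime g) :
    PTime fun a => f a + g a := by
  have h : PTime fun a => (List.replicate (f a) () ++ List.replicate (g a) ()).length := by
    fun_prop
  exact h.of_eq fun a => by simp

@[fun_prop] theorem PTime.mul {f g : α → ℕ} (hf : PTime f) (hg : PTime g) :
    PTime fun a => f a * g a := by
  have h1 : PTime fun a => (List.replicate (f a) ()).flatMap
      fun _ => List.replicate (g a) () := by
    refine PTime.flatMap (f := fun a _ => List.replicate (g a) ()) hf.replicateUnit ?_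
    exact (hg.comp PTime.fst).replicateUnit
  exact h1.length.of_eq fun a => by simp

@[fun_prop] theorem PTime.pred {f : α → ℕ} (hf : PTime f) : PTime fun a => f a - 1 := by
  have h : PTime fun a => (List.replicate (f a) ()).tail.length := by fun_prop
  exact h.of_eq fun a => by simp

@[fun_prop] theorem PTime.isZero {f : α → ℕ} (hf : PTime f) :
    PTime fun a => decide (f a = 0) := by
  have h : PTime fun a => (List.replicate (f a) ()).isEmpty := by fun_prop
  exact h.of_eq fun a => by cases f a <;> rfl

@[fun_prop] theorem PTime.sub {f g : α → ℕ} (hf : PTime f) (hg : PTime g) :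
    PTime fun a => f a - g a := by
  have key : ∀ (l : List Unit) (n : ℕ), l.foldl (fun m _ => m - 1) n = n - l.length := by
    intro l
    induction l with
    | nil => intro n; rfl
    | cons x l ih => intro n; rw [List.foldl_cons, ih, List.length_cons]; omega
  have h := PTime.foldl (l := fun a => List.replicate (g a) ()) (s := f)
    (f := fun _ m (_ : Unit) => m - 1) hg.replicateUnit hf (by fun_prop) hf.sz_le ?_
  · exact h.of_eq fun a => by rw [key]; simp
  · intro a l₁ l₂ _
    rw [key, sz_nat, sz_nat]
    omega

@[fun_prop] theorem PTime.le {f g : α → ℕ} (hf : PTime f) (hg : PTime g) :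
    PTime fun a => decide (f a ≤ g a) := by
  have h : PTime fun a => decide (f a - g a = 0) := by fun_prop
  exact h.of_eq fun a => by
    congr 1
    rw [Nat.sub_eq_zero_iff_le]

@[fun_prop] theorem PTime.lt {f g : α → ℕ} (hf : PTime f) (hg : PTime g) :
    PTime fun a => decide (f a < g a) := by
  have h : PTime fun a => decide (f a + 1 ≤ g a) := by fun_prop
  exact h.of_eq fun a => rfl

@[fun_prop] theorem PTime.natEq {f g : α → ℕ} (hf : PTime f) (hg : PTime g) :
    PTime fun a => decide (f a = g a) := by
  have h : PTime fun a => decide (f a ≤ g a) && decide (g a ≤ f a) := by fun_prop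
  exact h.of_eq fun a => by
    rw [← Bool.decide_and]
    congr 1
    rw [eq_iff_iff]
    constructor
    · rintro ⟨h1, h2⟩; exact le_antisymm h1 h2
    · intro h; exact ⟨h.le, h.ge⟩

@[fun_prop] theorem PTime.min {f g : α → ℕ} (hf : PTime f) (hg : PTime g) :
    PTime fun a => min (f a) (g a) :=
  (PTime.ite (p := fun a => f a ≤ g a) (by fun_prop) hf hg).of_eq fun a => by
    split_ifs <;> omega

@[fun_prop] theorem PTime.max {f g : α → ℕ} (hf : PTime f) (hg : PTime g) :
    PTime fun a => max (f a) (g a) :=
  (PTime.ite (p := fun a => f a ≤ g a) (by fun_prop) hg hf).of_eq fun a => by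
    split_ifs <;> omega

/-- Case distinction for numbers. -/
theorem PTime.natCases {n : α → ℕ} {h : α → γ} {f : α → γ} {g : α × ℕ → γ}
    (hn : PTime n) (hf : PTime f) (hg : PTime g) (h0 : ∀ a, n a = 0 → h a = f a)
    (h1 : ∀ a m, n a = m + 1 → h a = g (a, m)) : PTime h := by
  refine (PTime.ite (p := fun a => n a = 0) (by fun_prop) hf
    (g := fun a => g (a, n a - 1)) (by fun_prop)).of_eq fun a => ?_
  split_ifs with h
  · exact (h0 a h).symm
  · exact (h1 a (n a - 1) (by omega)).symm

/-- Iteration. -/
theorem PTime.iterate {n : α → ℕ} {s : α → σ} {f : α → σ → σ} (hn : PTime n)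
    (hs : PTime s) (hf : PTime fun p : α × σ => f p.1 p.2) {B : α → ℕ} (hB : PB B)
    (hsz : ∀ a, ∀ i ≤ n a, sz ((f a)^[i] (s a)) ≤ B a) :
    PTime fun a => (f a)^[n a] (s a) := by
  have key : ∀ (a : α) (l : List Unit) (x : σ), l.foldl (fun y _ => f a y) x =
      (f a)^[l.length] x := by
    intro a l
    induction l with
    | nil => intro x; rfl
    | cons y l ih => intro x; rw [List.foldl_cons, ih]; rfl
  have hf' : PTime fun p : α × σ × Unit => f p.1 p.2.1 :=
    hf.comp (g := fun p : α × σ × Unit => (p.1, p.2.1)) (by fun_prop)
  have h := PTime.foldl (l := fun a => List.replicate (n a) ()) (s := s)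
    (f := fun a x (_ : Unit) => f a x) hn.replicateUnit hs hf' hB ?_
  · exact h.of_eq fun a => by rw [key]; simp
  · intro a l₁ l₂ e
    rw [key]
    have := congrArg List.length e
    rw [List.length_replicate, List.length_append] at this
    exact hsz a _ (by omega)

@[fun_prop] theorem PTime.drop {n : α → ℕ} {l : α → List β} (hn : PTime n) (hl : PTime l) :
    PTime fun a => (l a).drop (n a) := by
  have key : ∀ (n : ℕ) (l : List β), List.tail^[n] l = l.drop n := by
    intro n
    induction n with
    | zero => intro l; rfl
    | succ n ih => intro l; rw [iterate_succ_apply, ih, List.drop_tail]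
  refine (PTime.iterate (f := fun _ l => l.tail) hn hl (by fun_prop) hl.sz_le ?_).of_eq
    fun a => key _ _
  intro a i _
  have h1 : (fun l : List β => l.tail)^[i] (l a) = (l a).drop i := key i (l a)
  rw [h1]
  have h2 := sz_append ((l a).take i) ((l a).drop i)
  rw [List.take_append_drop] at h2
  have := sz_pos ((l a).take i)
  omega

@[fun_prop] theorem PTime.getD {n : α → ℕ} {l : α → List β} {d : α → β} (hl : PTime l)
    (hn : PTime n) (hd : PTime d) : PTime fun a => (l a).getD (n a) (d a) := by
  have h : PTime fun a => ((l a).drop (n a)).headD (d a) := by fun_prop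
  refine h.of_eq fun a => ?_
  rw [List.headD_eq_head?_getD, List.head?_drop, List.getD_eq_getElem?_getD]

@[fun_prop] theorem PTime.take {n : α → ℕ} {l : α → List β} (hn : PTime n) (hl : PTime l) :
    PTime fun a => (l a).take (n a) := by
  have h : PTime fun a => ((l a).reverse.drop ((l a).length - n a)).reverse := by fun_prop
  refine h.of_eq fun a => ?_
  rw [List.drop_reverse, List.reverse_reverse]
  by_cases hn : n a ≤ (l a).length
  · congr 1; omega
  · rw [List.take_of_length_le (by omega), List.take_of_length_le (by omega)]

@[fun_prop] theorem PTime.range {n : α → ℕ} (hn : PTime n) :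
    PTime fun a => List.range (n a) := by
  have key : ∀ n : ℕ, (fun l : List ℕ => l.length :: l)^[n] [] = (List.range n).reverse := by
    intro n
    induction n with
    | zero => rfl
    | succ n ih => rw [iterate_succ_apply', ih, List.range_succ]; simp
  have hB : PB fun a => sz (n a) * (sz (n a) + 1) + 1 :=
    (hn.sz_le.mul (hn.sz_le.add (PB.const 1))).add (PB.const 1)
  refine ((PTime.iterate (f := fun _ (l : List ℕ) => l.length :: l) hn (PTime.const [])
    (by fun_prop) hB ?_).reverse).of_eq fun a => by rw [key, List.reverse_reverse]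
  intro a i hi
  rw [key, sz_reverse]
  have h1 : sz (List.range i) ≤ (List.range i).length * (sz (n a) + 1) + 1 := by
    refine sz_le_of_forall fun x hx => ?_
    rw [List.mem_range] at hx
    rw [sz_nat, sz_nat]
    omega
  rw [List.length_range] at h1
  have h2 : i ≤ sz (n a) := by rw [sz_nat]; omega
  have := Nat.mul_le_mul_right (sz (n a) + 1) h2
  omega

theorem PTime.any {l : α → List β} {f : α → β → Bool} (hl : PTime l)
    (hf : PTime fun p : α × β => f p.1 p.2) : PTime fun a => (l a).any (f a) := by
  refine (PTime.filter hl hf).isEmpty.not.of_eq fun a => ?_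
  induction l a with
  | nil => rfl
  | cons x t ih =>
    rw [List.filter_cons, List.any_cons, ← ih]
    cases f a x <;> simp

theorem PTime.all {l : α → List β} {f : α → β → Bool} (hl : PTime l)
    (hf : PTime fun p : α × β => f p.1 p.2) : PTime fun a => (l a).all (f a) := by
  refine (PTime.any (f := fun a x => !(f a x)) hl hf.not).not.of_eq fun a => ?_
  rw [List.not_any_eq_all_not]
  simp

theorem PTime.sum {l : α → List ℕ} (hl : PTime l) : PTime fun a => (l a).sum := by
  have h : PTime fun a => (l a).flatMap fun n => List.replicate n () :=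
    PTime.flatMap (f := fun _ n => List.replicate n ()) hl (by fun_prop)
  refine h.length.of_eq fun a => ?_
  rw [List.length_flatMap]
  congr 1
  simp

attribute [fun_prop] PTime.sum

@[fun_prop] theorem PTime.replicate {n : α → ℕ} {f : α → β} (hn : PTime n) (hf : PTime f) :
    PTime fun a => List.replicate (n a) (f a) := by
  have h := PTime.map (f := fun a (_ : Unit) => f a) hn.replicateUnit (hf.comp PTime.fst)
  exact h.of_eq fun a => by simp

/-! ### Options -/

/-- The tree of an option. -/
def trO : Option α → T
  | none => .nil
  | some a => .cons .nil (tr a)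

instance : Enc (Option α) := ⟨trO⟩

@[simp] theorem sz_none : sz (none : Option α) = 1 := rfl
@[simp] theorem sz_some (a : α) : sz (some a) = sz a + 2 := by
  show (T.cons .nil (tr a)).size = _
  simp only [T.size, sz]
  omega

@[fun_prop] theorem PTime.some {f : α → β} (hf : PTime f) : PTime fun a => some (f a) :=
  (PTime.same (fun p : Unit × β => Option.some p.2) fun _ => rfl).comp ((PTime.const ()).pair hf)

@[fun_prop] theorem PTime.isSome {f : α → Option β} (hf : PTime f) :
    PTime fun a => (f a).isSome := by
  refine (PTime.cast (f := T.isCons) (f' := fun l : Option β => l.isSome) PTime.isCons tr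
    (fun _ => rfl) fun l => ?_).comp hf
  cases l <;> rfl

/-- Case distinction for options. -/
theorem PTime.optionCases {o : α → Option β} {h : α → γ} {f : α → γ} {g : α × β → γ}
    (ho : PTime o) (hf : PTime f) (hg : PTime g) (h0 : ∀ a, o a = none → h a = f a)
    (h1 : ∀ a x, o a = Option.some x → h a = g (a, x)) : PTime h := by
  refine PTime.condS (b := fun a => (o a).isSome) ho.isSome ?_ ?_
  · have key : ∀ a : {a // (o a).isSome = true}, ∃ x, o a.1 = Option.some x :=
      fun a => Option.isSome_iff_exists.1 a.2
    choose u hu using key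
    have e : PTime fun a => (((), u a) : Unit × β) := by
      refine PTime.cast (f := fun a : {a // (o a).isSome = true} => o a.1)
        (ho.comp PTime.val) (fun a => a) (fun _ => rfl) fun a => ?_
      rw [hu a]
      rfl
    have e' : PTime u := e.snd'
    refine (hg.comp (PTime.val.pair e')).of_eq fun a => ?_
    exact (h1 a.1 (u a) (hu a)).symm
  · refine (hf.comp PTime.val).of_eq fun a => (h0 a.1 ?_).symm
    simpa using a.2

@[fun_prop] theorem PTime.optionGetD {o : α → Option β} {d : α → β} (ho : PTime o)
    (hd : PTime d) : PTime fun a => (o a).getD (d a) :=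
  PTime.optionCases (g := fun p => p.2) ho hd (by fun_prop) (fun a h => by simp [h])
    (fun a x h => by simp [h])

@[fun_prop] theorem PTime.headOpt {l : α → List β} (hl : PTime l) :
    PTime fun a => (l a).head? :=
  PTime.listCases (g := fun p => Option.some p.2.1) hl (PTime.const none) (by fun_prop)
    (fun a h => by simp [h]) (fun a x t h => by simp [h])

@[fun_prop] theorem PTime.getOpt {n : α → ℕ} {l : α → List β} (hl : PTime l) (hn : PTime n) :
    PTime fun a => (l a)[n a]? := by
  have h : PTime fun a => ((l a).drop (n a)).head? := by fun_prop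
  exact h.of_eq fun a => List.head?_drop

theorem PTime.optionMap {o : α → Option β} {f : α → β → γ} (ho : PTime o)
    (hf : PTime fun p : α × β => f p.1 p.2) : PTime fun a => (o a).map (f a) :=
  PTime.optionCases (g := fun p => Option.some (f p.1 p.2)) ho (PTime.const none) hf.some
    (fun a h => by simp [h]) (fun a x h => by simp [h])

theorem PTime.optionBind {o : α → Option β} {f : α → β → Option γ} (ho : PTime o)
    (hf : PTime fun p : α × β => f p.1 p.2) : PTime fun a => (o a).bind (f a) :=
  PTime.optionCases (g := fun p => f p.1 p.2) ho (PTime.const none) hf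
    (fun a h => by simp [h]) (fun a x h => by simp [h])

/-! ### Sums -/

/-- The tree of an element of a disjoint union. -/
def trS : α ⊕ β → T
  | .inl a => .cons .nil (tr a)
  | .inr b => .cons (.cons .nil .nil) (tr b)

instance : Enc (α ⊕ β) := ⟨trS⟩

@[fun_prop] theorem PTime.inl {f : α → β} (hf : PTime f) :
    PTime fun a => (Sum.inl (f a) : β ⊕ γ) :=
  PTime.cast (f := fun a => (false, f a)) ((PTime.const false).pair hf)
    (f' := fun a => (Sum.inl (f a) : β ⊕ γ)) (fun a => a) (fun _ => rfl) fun _ => rfl

@[fun_prop] theorem PTime.inr {f : α → γ} (hf : PTime f) :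
    PTime fun a => (Sum.inr (f a) : β ⊕ γ) :=
  PTime.cast (f := fun a => (true, f a)) ((PTime.const true).pair hf)
    (f' := fun a => (Sum.inr (f a) : β ⊕ γ)) (fun a => a) (fun _ => rfl) fun _ => rfl

/-- Case distinction for sums. -/
theorem PTime.sumCases {o : α → β ⊕ γ} {h : α → δ} {f : α × β → δ} {g : α × γ → δ}
    (ho : PTime o) (hf : PTime f) (hg : PTime g) (h0 : ∀ a x, o a = Sum.inl x → h a = f (a, x))
    (h1 : ∀ a x, o a = Sum.inr x → h a = g (a, x)) : PTime h := by
  have hr : PTime fun a => (o a).isRight := by
    refine PTime.cast (f := fun a => (tr (o a)).hd) (f' := fun a => (o a).isRight)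
      ((PTime.hd.comp (PTime.same (fun b : β ⊕ γ => tr b) fun _ => rfl)).comp ho)
      (fun a => a) (fun _ => rfl) fun a => ?_
    cases o a <;> rfl
  have ht : PTime fun a => (tr (o a)).tl :=
    (PTime.tl.comp (PTime.same (fun b : β ⊕ γ => tr b) fun _ => rfl)).comp ho
  refine PTime.condS (b := fun a => (o a).isRight) hr ?_ ?_
  · have key : ∀ a : {a // (o a).isRight = true}, ∃ x, o a.1 = Sum.inr x :=
      fun a => Sum.isRight_iff.1 a.2
    choose u hu using key
    have e : PTime u := by
      refine PTime.cast (f := fun a : {a // (o a).isRight = true} => (tr (o a.1)).tl)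
        (ht.comp PTime.val) (fun a => a) (fun _ => rfl) fun a => ?_
      rw [hu a]
      rfl
    refine (hg.comp (PTime.val.pair e)).of_eq fun a => ?_
    exact (h1 a.1 (u a) (hu a)).symm
  · have key : ∀ a : {a // (o a).isRight = false}, ∃ x, o a.1 = Sum.inl x := by
      rintro ⟨a, ha⟩
      cases h : o a with
      | inl x => exact ⟨x, rfl⟩
      | inr x => simp [h] at ha
    choose u hu using key
    have e : PTime u := by
      refine PTime.cast (f := fun a : {a // (o a).isRight = false} => (tr (o a.1)).tl)
        (ht.comp PTime.val) (fun a => a) (fun _ => rfl) fun a => ?_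
      rw [hu a]
      rfl
    refine (hf.comp (PTime.val.pair e)).of_eq fun a => ?_
    exact (h0 a.1 (u a) (hu a)).symm

end Pool.Agent.Lib.PT
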